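import Mathlib

/-!
# The P²GD algorithm on the determinantal variety: definitions
-/

open Filter Topology Matrix
open scoped Matrix.Norms.Frobenius

namespace P2GD

/-- `ℝ^{m × n}_{≤ r}`. -/
def detVar (m n r : ℕ) : Set (Matrix (Fin m) (Fin n) ℝ) := {X | X.rank ≤ r}

/-- The tangent cone `T_S(X)`: all `V` for which there are `t_i ↓ 0` in `(0,∞)` and `V_i → V`
with `X + t_i V_i ∈ S` for all `i`. -/
def tangentCone {m n : ℕ} (S : Set (Matrix (Fin m) (Fin n) ℝ)) (X : Matrix (Fin m) (Fin n) ℝ) :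
    Set (Matrix (Fin m) (Fin n) ℝ) :=
  {V | ∃ (t : ℕ → ℝ) (W : ℕ → Matrix (Fin m) (Fin n) ℝ), (∀ i, 0 < t i) ∧ Antitone t ∧
    Tendsto t atTop (𝓝 0) ∧ Tendsto W atTop (𝓝 V) ∧ ∀ i, X + t i • W i ∈ S}

/-- `P_C(Y)`, the set of the elements of `C` nearest to `Y` in the Frobenius norm. -/
def proj {m n : ℕ} (C : Set (Matrix (Fin m) (Fin n) ℝ)) (Y : Matrix (Fin m) (Fin n) ℝ) :
    Set (Matrix (Fin m) (Fin n) ℝ) :=
  {Z | Z ∈ C ∧ ∀ Z' ∈ C, ‖Y - Z‖ ≤ ‖Y - Z'‖}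

/-- The gradient of `f` for the Frobenius inner product: the matrix of partial derivatives. -/
noncomputable def grad {m n : ℕ} (f : Matrix (Fin m) (Fin n) ℝ → ℝ) (X : Matrix (Fin m) (Fin n) ℝ) :
    Matrix (Fin m) (Fin n) ℝ :=
  Matrix.of fun i j => fderiv ℝ f X (Matrix.single i j 1)

/-- The stationarity measure `s_f(X) = ‖P_{T(X)}(-∇f(X))‖` on `ℝ^{m × n}_{≤ r}` (all elements of
the projection have the same norm). -/
noncomputable def statMeas {m n : ℕ} (r : ℕ) (f : Matrix (Fin m) (Fin n) ℝ → ℝ)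
    (X : Matrix (Fin m) (Fin n) ℝ) : ℝ :=
  sInf ((fun G => ‖G‖) '' proj (tangentCone (detVar m n r) X) (-grad f X))

/-- `Y` is a possible output of the P²GD map with parameters `[αlo, αhi]`, `β`, `c` at `X`:
after choosing `G` and `α`, `J` backtracking steps are made, `Z j` being the chosen element of the
projection of `X + α β^j G`. -/
def IsOutput {m n : ℕ} (r : ℕ) (f : Matrix (Fin m) (Fin n) ℝ → ℝ) (αlo αhi β c : ℝ)
    (X Y : Matrix (Fin m) (Fin n) ℝ) : Prop :=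
  ∃ G ∈ proj (tangentCone (detVar m n r) X) (-grad f X), ∃ α ∈ Set.Icc αlo αhi,
    ∃ (J : ℕ) (Z : ℕ → Matrix (Fin m) (Fin n) ℝ),
      (∀ j ≤ J, Z j ∈ proj (detVar m n r) (X + (α * β ^ j) • G)) ∧
      (∀ j < J, f X - c * (α * β ^ j) * statMeas r f X ^ 2 < f (Z j)) ∧
      f (Z J) ≤ f X - c * (α * β ^ J) * statMeas r f X ^ 2 ∧
      Y = Z J

/-- A P²GD sequence. -/
def IsP2GDSeq {m n : ℕ} (r : ℕ) (f : Matrix (Fin m) (Fin n) ℝ → ℝ) (αlo αhi β c : ℝ)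
    (X : ℕ → Matrix (Fin m) (Fin n) ℝ) : Prop :=
  X 0 ∈ detVar m n r ∧ ∀ i, 0 < statMeas r f (X i) ∧ IsOutput r f αlo αhi β c (X i) (X (i + 1))

end P2GD
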