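import Mathlib
import Pool.Agent.Lib_helper66.P2GD.Defs

open Filter Topology Matrix
open scoped Matrix.Norms.Frobenius

namespace P2GD

lemma norm_sq_eq {m n : ℕ} (A : Matrix (Fin m) (Fin n) ℝ) : ‖A‖ ^ 2 = ∑ i, ∑ j, A i j ^ 2 := by
  rw [Matrix.frobenius_norm_def]
  have h0 : (0:ℝ) ≤ ∑ i, ∑ j, ‖A i j‖ ^ (2:ℝ) :=
    Finset.sum_nonneg fun i _ => Finset.sum_nonneg fun j _ => Real.rpow_nonneg (norm_nonneg _) _
  rw [← Real.sqrt_eq_rpow, Real.sq_sqrt h0]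
  refine Finset.sum_congr rfl fun i _ => Finset.sum_congr rfl fun j _ => ?_
  rw [Real.rpow_two, Real.norm_eq_abs, sq_abs]

abbrev M3 := Matrix (Fin 3) (Fin 3) ℝ

lemma norm_sq3 (A : M3) : ‖A‖ ^ 2 = A 0 0 ^ 2 + A 0 1 ^ 2 + A 0 2 ^ 2 + A 1 0 ^ 2 + A 1 1 ^ 2 +
    A 1 2 ^ 2 + A 2 0 ^ 2 + A 2 1 ^ 2 + A 2 2 ^ 2 := by
  rw [norm_sq_eq]
  simp only [Fin.sum_univ_three]
  ring

lemma det_eq_zero_of_rank {A : M3} (h : A.rank ≤ 2) : A.det = 0 := by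
  by_contra hd
  have hu : IsUnit A := (Matrix.isUnit_iff_isUnit_det A).2 (isUnit_iff_ne_zero.2 hd)
  have := Matrix.rank_of_isUnit A hu
  simp at this
  omega

lemma rank_of_det_eq_zero {A : M3} (h : A.det = 0) : A.rank ≤ 2 := by
  obtain ⟨v, hv, hAv⟩ := Matrix.exists_mulVec_eq_zero_iff.2 h
  have h1 := LinearMap.finrank_range_add_finrank_ker A.mulVecLin
  have h2 : 0 < Module.finrank ℝ (LinearMap.ker A.mulVecLin) := by
    rw [Module.finrank_pos_iff]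
    refine ⟨⟨⟨v, ?_⟩, 0, ?_⟩⟩
    · simpa using hAv
    · intro h3
      exact hv (by simpa using congrArg Subtype.val h3)
  have h3 : A.rank = Module.finrank ℝ (LinearMap.range A.mulVecLin) := rfl
  simp at h1
  omega

lemma mem_detVar_iff {A : M3} : A ∈ detVar 3 3 2 ↔ A.det = 0 :=
  ⟨det_eq_zero_of_rank, rank_of_det_eq_zero⟩

end P2GD
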