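import Mathlib

/-!
# The algebraic two-cycle

For `t` real, explicit polynomial functions of `t` are given; at a root `t` of a quadratic polynomial
they describe a P²GD cycle up to scale for the linear function `tr (S X)` on `3 × 3` matrices of rank
at most two.
-/

namespace P2GD.Cycle

noncomputable section

def n0 : ℝ := 250 / 10 ^ 12
def n : ℝ := 101 / 10 ^ 12
def g : ℝ := 155 / 10 ^ 12
def k : ℝ := 17 / 10 ^ 6
def eta : ℝ := 34 / 1000017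
def lam : ℝ := 999983 / 1000017
def D0 : ℝ := 1 - 2 * k * n0 + n0 ^ 2
def D1 : ℝ := 1 + 2 * k * g + g ^ 2
def K : ℝ := (1 + n0) ^ 2
def be : ℝ := 1 - k * n0 - k * g + g * n0
def de : ℝ := 1 + k * g + k * n + g * n

def p (t : ℝ) : ℝ := ((1 + g) * (1 + k) * 54 + 2 * t * (101 * (g + k) - 155 * (1 + k * g))) / 149
def r (t : ℝ) : ℝ := ((1 + k) * ((1 + g) * (-95) - 310 * (1 - n0) * t)) / 149
def De (t : ℝ) : ℝ := D0 * p t - D1 * r t
def s (t : ℝ) : ℝ := 1 - eta * t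
def h (t : ℝ) : ℝ := s t * K * p t
def W (t : ℝ) : ℝ := -(s t * K * r t)
def H (t : ℝ) : ℝ := h t + eta * t * De t
def L (t : ℝ) : ℝ := 2 * t * De t - H t
def E (t : ℝ) : ℝ := K * be * p t - K * de * r t - (1 + g) * (1 + n0) * De t
def N (t : ℝ) : ℝ :=
  10 ^ 6 * (h t * (1 - k * n0) + eta * t * De t * (1 + n0) + W t * (1 + k * g))
def a (t : ℝ) : ℝ := n0 * H t + k * L t
def b (t : ℝ) : ℝ := W t * (g + k)
def bt0 (t : ℝ) : ℝ := (g - k) * K * p t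
def bt1 (t : ℝ) : ℝ := -(K * (n + k) * r t) - eta * t * E t / (1 + g)
def D (t : ℝ) : ℝ := 10 ^ 6 * eta * t * (s t * E t / (1 + g)) / (1 + n)
def A11 (t : ℝ) : ℝ := ((15 * a t + 10 * b t) - 5 * (15 * bt0 t + 10 * bt1 t)) * 10 ^ 6 / (-35)
def A12 (t : ℝ) : ℝ := (15 * (15 * bt0 t + 10 * bt1 t) - 10 * (15 * a t + 10 * b t)) * 10 ^ 6 / (-35)
def A22 (t : ℝ) : ℝ := (15 * (5 * bt0 t + bt1 t) - 10 * (5 * a t + b t)) * 10 ^ 6 / (-35)

/-- entries of the leading block of `X₀` -/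
def S11 (t : ℝ) : ℝ := A11 t - (H t * 225 + W t * 100) / 10 ^ 6
def S12 (t : ℝ) : ℝ := A12 t - (H t * 75 + W t * 10) / 10 ^ 6
def S22 (t : ℝ) : ℝ := A22 t - (H t * 25 + W t * 1) / 10 ^ 6

def qSq1 (t : ℝ) : ℝ := (A11 t * 100 + 2 * A12 t * 10 + A22 t) / 10 ^ 12 + N t

/-- the final equation -/
def F4 (t : ℝ) : ℝ := (eta * 10 ^ 6 * W t - D t) * (1 + n) ^ 2 - eta * (1 - t) * qSq1 t

lemma sym (t : ℝ) : A12 t = ((5 * a t + b t) - 5 * (5 * bt0 t + bt1 t)) * 10 ^ 6 / (-35) := by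
  simp only [A12, a, b, bt0, bt1, E, H, L, W, h, De, s, p, r, K, D0, D1, be, de, n0, n, g, k, eta]
  ring

/-- `X₀ q₀ = 0` -/
lemma F1a (t : ℝ) : S11 t * 15 + S12 t * 5 = 10 ^ 6 * (k * (L t * 15 + W t * 10)) := by
  simp only [S11, S12, A11, A12, a, b, bt0, bt1, E, H, L, W, h, De, s, p, r, K, D0, D1, be, de, n0, n, g, k, eta]
  ring


lemma F1b (t : ℝ) : S12 t * 15 + S22 t * 5 = 10 ^ 6 * (k * (L t * 5 + W t * 1)) := by
  simp only [S12, S22, A12, A22, a, b, bt0, bt1, E, H, L, W, h, De, s, p, r, K, D0, D1, be, de, n0, n, g, k, eta]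
  ring

lemma F1c (t : ℝ) : N t - 10 ^ 6 * (H t + W t) =
    (k * (L t * 15 + W t * 10) * 15 + k * (L t * 5 + W t * 1) * 5) / 10 ^ 6 := by
  simp only [N, H, L, W, h, De, s, p, r, K, D0, D1, n0, g, k, eta]
  ring

/-- `q₀ᵀ S q₀ = γ |q₀|⁴` -/
lemma F3 (t : ℝ) : (A11 t * 225 + 2 * A12 t * 75 + A22 t * 25) / 10 ^ 12 + N t =
    10 ^ 6 * De t * (1 + n0) ^ 2 := by
  simp only [A11, A12, A22, N, a, b, bt0, bt1, E, H, L, W, h, De, s, p, r, K, D0, D1, be, de, n0, n, g, k, eta]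
  ring

def T11 (t : ℝ) : ℝ := S11 t - eta * t * (A11 t - 225 * De t / 10 ^ 6) + 100 * D t / 10 ^ 12
def T12 (t : ℝ) : ℝ := S12 t - eta * t * (A12 t - 75 * De t / 10 ^ 6) + 10 * D t / 10 ^ 12
def T22 (t : ℝ) : ℝ := S22 t - eta * t * (A22 t - 25 * De t / 10 ^ 6) + D t / 10 ^ 12

/-- `X₁ q₁ = 0` -/
lemma F2a (t : ℝ) : T11 t * 10 + T12 t =
    10 ^ 6 * (k * (L t * 15 + W t * 10) - eta * t * (15 * De t) - 10 * D t / 10 ^ 6) := by
  simp only [T11, T12, D, S11, S12, A11, A12, a, b, bt0, bt1, E, H, L, W, h, De, s, p, r, K, D0, D1, be, de, n0, n, g, k, eta]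
  ring

lemma F2b (t : ℝ) : T12 t * 10 + T22 t =
    10 ^ 6 * (k * (L t * 5 + W t * 1) - eta * t * (5 * De t) - D t / 10 ^ 6) := by
  simp only [T12, T22, D, S12, S22, A12, A22, a, b, bt0, bt1, E, H, L, W, h, De, s, p, r, K, D0, D1, be, de, n0, n, g, k, eta]
  ring

lemma F2c (t : ℝ) : (N t - 10 ^ 6 * (H t + W t)) - eta * t * (N t - 10 ^ 6 * De t) + D t =
    ((k * (L t * 15 + W t * 10) - eta * t * (15 * De t) - 10 * D t / 10 ^ 6) * 10 +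
     (k * (L t * 5 + W t * 1) - eta * t * (5 * De t) - D t / 10 ^ 6)) / 10 ^ 6 := by
  simp only [D, N, E, H, L, W, h, De, s, p, r, K, D0, D1, be, de, n0, n, g, k, eta]
  ring

end

end P2GD.Cycle
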