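import Mathlib
import Pool.Agent.Lib_helper66.P2GD.Cycle

set_option linter.unusedSimpArgs false

namespace P2GD.Cycle

noncomputable def tlo : ℝ := 0.1176501730088424171118
noncomputable def thi : ℝ := 0.1176501730088424171119

lemma cp : Continuous p := by unfold p; fun_prop
lemma cr : Continuous r := by unfold r; fun_prop
lemma cs : Continuous s := by unfold s; fun_prop
lemma cDe : Continuous De := by unfold De; have := cp; have := cr; fun_prop
lemma ch : Continuous h := by unfold h; have := cp; have := cs; fun_prop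
lemma cW : Continuous W := by unfold W; have := cr; have := cs; fun_prop
lemma cH : Continuous H := by unfold H; have := ch; have := cDe; fun_prop
lemma cL : Continuous L := by unfold L; have := cH; have := cDe; fun_prop
lemma cE : Continuous E := by unfold E; have := cp; have := cr; have := cDe; fun_prop
lemma cN : Continuous N := by unfold N; have := ch; have := cDe; have := cW; fun_prop
lemma ca : Continuous a := by unfold a; have := cH; have := cL; fun_prop
lemma cb : Continuous b := by unfold b; have := cW; fun_prop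
lemma cbt0 : Continuous bt0 := by unfold bt0; have := cp; fun_prop
lemma cbt1 : Continuous bt1 := by unfold bt1; have := cr; have := cE; fun_prop
lemma cD : Continuous D := by unfold D; have := cs; have := cE; fun_prop
lemma cA11 : Continuous A11 := by
  unfold A11; have := ca; have := cb; have := cbt0; have := cbt1; fun_prop
lemma cA12 : Continuous A12 := by
  unfold A12; have := ca; have := cb; have := cbt0; have := cbt1; fun_prop
lemma cA22 : Continuous A22 := by
  unfold A22; have := ca; have := cb; have := cbt0; have := cbt1; fun_prop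
lemma cq : Continuous qSq1 := by
  unfold qSq1; have := cA11; have := cA12; have := cA22; have := cN; fun_prop

lemma F4_cont : Continuous F4 := by
  unfold F4; have := cW; have := cD; have := cq; fun_prop

lemma F4_lo : F4 tlo < 0 := by
  simp only [F4, qSq1, tlo, D, N, A11, A12, A22, a, b, bt0, bt1, E, H, L, W, h, De, s, p, r, K, D0, D1, be, de, n0, n, g, k, eta]
  norm_num

lemma F4_hi : 0 < F4 thi := by
  simp only [F4, qSq1, thi, D, N, A11, A12, A22, a, b, bt0, bt1, E, H, L, W, h, De, s, p, r, K, D0, D1, be, de, n0, n, g, k, eta]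
  norm_num

lemma exists_root : ∃ t, tlo < t ∧ t < thi ∧ F4 t = 0 := by
  have h := intermediate_value_Ioo (by norm_num [tlo, thi] : tlo ≤ thi) F4_cont.continuousOn
  obtain ⟨t, ht, h0⟩ := h ⟨F4_lo, F4_hi⟩
  exact ⟨t, ht.1, ht.2, h0⟩

section bounds
variable {t : ℝ} (h1 : tlo < t) (h2 : t < thi)
include h1 h2

lemma De_bd : 1.00002 < De t ∧ De t < 1.00003 := by
  simp only [tlo, thi] at h1 h2
  simp only [De, p, r, K, D0, D1, be, de, n0, n, g, k, eta]
  constructor <;> nlinarith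

lemma diff_bd : 2.25884e-10 < H t - t * De t ∧ H t - t * De t < 2.25885e-10 := by
  simp only [tlo, thi] at h1 h2
  have h3 := mul_pos (sub_pos.2 h1) (sub_pos.2 h2)
  simp only [H, h, s, De, p, r, K, D0, D1, be, de, n0, n, g, k, eta]
  constructor <;> nlinarith

lemma W_bd : 0.882 < W t ∧ W t < 0.883 := by
  simp only [tlo, thi] at h1 h2
  have h3 := mul_pos (sub_pos.2 h1) (sub_pos.2 h2)
  simp only [W, s, r, K, n0, n, g, k, eta]
  constructor <;> nlinarith

lemma H_bd : 0.117 < H t ∧ H t < 0.118 := by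
  simp only [tlo, thi] at h1 h2
  have h3 := mul_pos (sub_pos.2 h1) (sub_pos.2 h2)
  simp only [H, h, s, De, p, r, K, D0, D1, be, de, n0, n, g, k, eta]
  constructor <;> nlinarith

lemma N_bd : 1000023 < N t ∧ N t < 1000024 := by
  simp only [tlo, thi] at h1 h2
  have h3 := mul_pos (sub_pos.2 h1) (sub_pos.2 h2)
  simp only [N, H, h, W, s, De, p, r, K, D0, D1, be, de, n0, n, g, k, eta]
  constructor <;> nlinarith

lemma E_bd : 9.5e-11 < E t ∧ E t < 9.51e-11 := by
  simp only [tlo, thi] at h1 h2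
  simp only [E, De, p, r, K, D0, D1, be, de, n0, n, g, k, eta]
  constructor <;> nlinarith


lemma z_bd : 0 < eta * t * E t / (1 + g) ∧ eta * t * E t / (1 + g) < 1e-14 := by
  have hE := E_bd h1 h2
  simp only [tlo, thi] at h1 h2
  have hg : (0:ℝ) < 1 + g := by norm_num [g]
  have h3 : 0 < t * E t := mul_pos (by linarith) (by linarith [hE.1])
  have h4 : t * E t < 0.12 * 9.51e-11 :=
    mul_lt_mul (by linarith) hE.2.le (by linarith [hE.1]) (by norm_num)
  constructor
  · apply div_pos _ hg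
    have : (0:ℝ) < eta := by norm_num [eta]
    calc (0:ℝ) < eta * (t * E t) := mul_pos this h3
      _ = _ := by ring
  · rw [div_lt_iff₀ hg]
    have : eta * t * E t = eta * (t * E t) := by ring
    rw [this]
    simp only [eta, g]
    norm_num at h4 ⊢
    linarith

lemma A11_bd : 12.0004 < A11 t ∧ A11 t < 12.0005 := by
  have hz := z_bd h1 h2
  simp only [tlo, thi] at h1 h2
  have h3 := mul_pos (sub_pos.2 h1) (sub_pos.2 h2)
  simp only [A11, bt1]
  set z := eta * t * E t / (1 + g)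
  simp only [a, b, bt0, H, L, W, h, De, s, p, r, K, D0, D1, n0, n, g, k, eta]
  constructor <;> nlinarith [mul_pos (sub_pos.2 h1) (sub_pos.2 h1), mul_pos (sub_pos.2 h2) (sub_pos.2 h2), hz.1, hz.2]

lemma A12_bd : 0 < A12 t ∧ A12 t < 0.00002 := by
  have hz := z_bd h1 h2
  simp only [tlo, thi] at h1 h2
  have h3 := mul_pos (sub_pos.2 h1) (sub_pos.2 h2)
  simp only [A12, bt1]
  set z := eta * t * E t / (1 + g)
  simp only [a, b, bt0, H, L, W, h, De, s, p, r, K, D0, D1, n0, n, g, k, eta]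
  constructor <;> nlinarith [mul_pos (sub_pos.2 h1) (sub_pos.2 h1), mul_pos (sub_pos.2 h2) (sub_pos.2 h2), hz.1, hz.2]

lemma A22_bd : 5.0001 < A22 t ∧ A22 t < 5.0002 := by
  have hz := z_bd h1 h2
  simp only [tlo, thi] at h1 h2
  have h3 := mul_pos (sub_pos.2 h1) (sub_pos.2 h2)
  simp only [A22, bt1]
  set z := eta * t * E t / (1 + g)
  simp only [a, b, bt0, H, L, W, h, De, s, p, r, K, D0, D1, n0, n, g, k, eta]
  constructor <;> nlinarith [mul_pos (sub_pos.2 h1) (sub_pos.2 h1), mul_pos (sub_pos.2 h2) (sub_pos.2 h2), hz.1, hz.2]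

lemma D_bd : 3.79e-10 < D t ∧ D t < 3.81e-10 := by
  have hE := E_bd h1 h2
  simp only [tlo, thi] at h1 h2
  have hD : D t = 10 ^ 6 * eta / ((1 + g) * (1 + n)) * (t * (s t * E t)) := by
    simp only [D]; field_simp
  rw [hD]
  have hs : 0.99999 < s t ∧ s t < 1 := by
    simp only [s, eta]; constructor <;> linarith
  have e1 : 0.99999 * 9.5e-11 < s t * E t :=
    mul_lt_mul'' hs.1 hE.1 (by norm_num) (by norm_num)
  have e2 : s t * E t < 1 * 9.51e-11 :=
    mul_lt_mul'' hs.2 hE.2 (by linarith [hs.1]) (by linarith [hE.1])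
  have e3 : 0.11765 * (0.99999 * 9.5e-11) < t * (s t * E t) :=
    mul_lt_mul'' (by linarith) e1 (by norm_num) (by norm_num)
  have e4 : t * (s t * E t) < 0.117651 * (1 * 9.51e-11) :=
    mul_lt_mul'' (by linarith) e2 (by linarith) (by nlinarith)
  simp only [eta, g, n]
  constructor <;> norm_num at e3 e4 ⊢ <;> linarith

end bounds

/-- The data of the two-cycle. `X₀` has leading block `(s11, s12; s12, s22)` and null vector
`(-15, -5, 10^6)`, `X₁` has leading block `(t11, t12; t12, t22)` and null vector `(-10, -1, 10^6)`,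
`S` has leading block `(a11, a12; a12, a22)` and last diagonal entry `N`. -/
structure Data where
  (a11 a12 a22 N Ga ze D D2 al0 al1 lam s11 s12 s22 t11 t12 t22 : ℝ)
  E11 : s11 - al0 * (a11 - Ga * 225 / 10 ^ 12) + D * 100 / 10 ^ 12 = t11
  E12 : s12 - al0 * (a12 - Ga * 75 / 10 ^ 12) + D * 10 / 10 ^ 12 = t12
  E22 : s22 - al0 * (a22 - Ga * 25 / 10 ^ 12) + D / 10 ^ 12 = t22
  E13 : (15 * s11 + 5 * s12) / 10 ^ 6 - al0 * (Ga * 15 / 10 ^ 6) - D * 10 / 10 ^ 6 =
    (10 * t11 + t12) / 10 ^ 6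
  E23 : (15 * s12 + 5 * s22) / 10 ^ 6 - al0 * (Ga * 5 / 10 ^ 6) - D / 10 ^ 6 =
    (10 * t12 + t22) / 10 ^ 6
  E33 : (225 * s11 + 150 * s12 + 25 * s22) / 10 ^ 12 - al0 * (N - Ga) + D =
    (100 * t11 + 20 * t12 + t22) / 10 ^ 12
  Q0 : (225 * a11 + 150 * a12 + 25 * a22) / 10 ^ 12 + N = Ga * (1 + 250 / 10 ^ 12) ^ 2
  Q1 : (100 * a11 + 20 * a12 + a22) / 10 ^ 12 + N = ze * (1 + 101 / 10 ^ 12) ^ 2
  F11 : t11 - al1 * (a11 - ze * 100 / 10 ^ 12) + D2 * 225 / 10 ^ 12 = lam * s11
  F12 : t12 - al1 * (a12 - ze * 10 / 10 ^ 12) + D2 * 75 / 10 ^ 12 = lam * s12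
  F22 : t22 - al1 * (a22 - ze / 10 ^ 12) + D2 * 25 / 10 ^ 12 = lam * s22
  F13 : (10 * t11 + t12) / 10 ^ 6 - al1 * (ze * 10 / 10 ^ 6) + D2 * 15 / 10 ^ 6 =
    -(lam * ((15 * s11 + 5 * s12) / 10 ^ 6))
  F23 : (10 * t12 + t22) / 10 ^ 6 - al1 * (ze / 10 ^ 6) + D2 * 5 / 10 ^ 6 =
    -(lam * ((15 * s12 + 5 * s22) / 10 ^ 6))
  F33 : (100 * t11 + 20 * t12 + t22) / 10 ^ 12 - al1 * (N - ze) + D2 =
    lam * ((225 * s11 + 150 * s12 + 25 * s22) / 10 ^ 12)
  ba11 : 12.0004 < a11 ∧ a11 < 12.0005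
  ba12 : 0 < a12 ∧ a12 < 0.00002
  ba22 : 5.0001 < a22 ∧ a22 < 5.0002
  bN : 1000023 < N ∧ N < 1000024
  bGa : 1000020 < Ga ∧ Ga < 1000030
  bze : 1000022 < ze ∧ ze < 1000025
  bD : 3.79e-10 < D ∧ D < 3.81e-10
  bD2 : 7.679e-9 < D2 ∧ D2 < 7.681e-9
  bal0 : 3.999e-6 < al0 ∧ al0 < 4.001e-6
  bal1 : 2.9999e-5 < al1 ∧ al1 < 3.0001e-5
  blam : 0.99996 < lam ∧ lam < 0.99997
  bs11 : 12 < s11 ∧ s11 < 12.001
  bs12 : -0.001 < s12 ∧ s12 < 0.001
  bs22 : 5 < s22 ∧ s22 < 5.001
  bt11 : 12 < t11 ∧ t11 < 12.001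
  bt12 : -0.001 < t12 ∧ t12 < 0.001
  bt22 : 5 < t22 ∧ t22 < 5.001

lemma prod_bd (x u c : ℝ) (hx : 0 < x) (hx2 : x < 4.001e-6) (hu1 : -c < u) (hu2 : u < c)
    (hc : 0 < c) : -(4.001e-6 * c) < x * u ∧ x * u < 4.001e-6 * c := by
  constructor
  · have h1 : x * (-c) < x * u := mul_lt_mul_of_pos_left hu1 hx
    have h2 : x * c < 4.001e-6 * c := mul_lt_mul_of_pos_right hx2 hc
    linarith
  · have h1 : x * u < x * c := mul_lt_mul_of_pos_left hu2 hx
    have h2 : x * c < 4.001e-6 * c := mul_lt_mul_of_pos_right hx2 hc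
    linarith

theorem exists_data : Nonempty Data := by
  obtain ⟨t, h1, h2, h0⟩ := exists_root
  have bDe := De_bd h1 h2
  have bdf := diff_bd h1 h2
  have bW := W_bd h1 h2
  have bH := H_bd h1 h2
  have bN := N_bd h1 h2
  have b11 := A11_bd h1 h2
  have b12 := A12_bd h1 h2
  have b22 := A22_bd h1 h2
  have bD := D_bd h1 h2
  have c1 := F1a t
  have c2 := F1b t
  have c3 := F1c t
  have c4 := F3 t
  have c5 := F2a t
  have c6 := F2b t
  have c7 := F2c t
  simp only [tlo, thi] at h1 h2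
  set ze := qSq1 t / (1 + n) ^ 2 with hze
  have hn : (1 + n) ≠ 0 := by norm_num [n]
  have hq : qSq1 t = ze * (1 + n) ^ 2 := by rw [hze]; field_simp
  -- the final equation
  have hF : eta * (1 - t) * ze = eta * 10 ^ 6 * W t - D t := by
    have h3 : (eta * 10 ^ 6 * W t - D t) * (1 + n) ^ 2 - eta * (1 - t) * (ze * (1 + n) ^ 2) = 0 := by
      rw [← hq]; exact h0
    have h4 : ((eta * 10 ^ 6 * W t - D t) - eta * (1 - t) * ze) * (1 + n) ^ 2 = 0 := by
      linear_combination h3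
    rcases mul_eq_zero.1 h4 with h5 | h5
    · linarith
    · exact absurd h5 (pow_ne_zero 2 hn)
  have hlam : lam = 1 - eta := by norm_num [lam, eta]
  have hk : k * (1 + lam) = eta := by norm_num [lam, eta, k]
  have hL : L t = 2 * t * De t - H t := rfl
  have hS11 : S11 t = A11 t - (H t * 225 + W t * 100) / 10 ^ 6 := rfl
  have hS12 : S12 t = A12 t - (H t * 75 + W t * 10) / 10 ^ 6 := rfl
  have hS22 : S22 t = A22 t - (H t * 25 + W t * 1) / 10 ^ 6 := rfl
  have hT11 : T11 t = S11 t - eta * t * (A11 t - 225 * De t / 10 ^ 6) + 100 * D t / 10 ^ 12 := rfl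
  have hT12 : T12 t = S12 t - eta * t * (A12 t - 75 * De t / 10 ^ 6) + 10 * D t / 10 ^ 12 := rfl
  have hT22 : T22 t = S22 t - eta * t * (A22 t - 25 * De t / 10 ^ 6) + D t / 10 ^ 12 := rfl
  have bze : 1000022 < ze ∧ ze < 1000025 := by
    have e1 : qSq1 t = (A11 t * 100 + 2 * A12 t * 10 + A22 t) / 10 ^ 12 + N t := rfl
    rw [hq] at e1
    simp only [n] at e1
    constructor <;> linarith [e1, b11.1, b11.2, b12.1, b12.2, b22.1, b22.2, bN.1, bN.2]
  have beta : eta = 34 / 1000017 := rfl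
  have bal0 : 3.999e-6 < eta * t ∧ eta * t < 4.001e-6 := by
    rw [beta]; constructor <;> linarith
  have bv : (0:ℝ) < eta * t := by linarith [bal0.1]
  have prod := fun u c => prod_bd (eta * t) u c bv bal0.2
  have bs11 : 12 < S11 t ∧ S11 t < 12.001 := by
    rw [hS11]
    constructor <;> linarith [b11.1, b11.2, bH.1, bH.2, bW.1, bW.2]
  have bs12 : -0.001 < S12 t ∧ S12 t < 0.001 := by
    rw [hS12]
    constructor <;> linarith [b12.1, b12.2, bH.1, bH.2, bW.1, bW.2]
  have bs22 : 5 < S22 t ∧ S22 t < 5.001 := by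
    rw [hS22]
    constructor <;> linarith [b22.1, b22.2, bH.1, bH.2, bW.1, bW.2]
  have bt11 : 12 < T11 t ∧ T11 t < 12.001 := by
    have e := prod (A11 t - 225 * De t / 10 ^ 6) 13 (by linarith [b11.1, bDe.2])
      (by linarith [b11.2, bDe.1]) (by norm_num)
    rw [hT11, hS11]
    constructor <;> linarith [e.1, e.2, b11.1, b11.2, bH.1, bH.2, bW.1, bW.2, bD.1, bD.2]
  have bt12 : -0.001 < T12 t ∧ T12 t < 0.001 := by
    have e := prod (A12 t - 75 * De t / 10 ^ 6) 1 (by linarith [b12.1, bDe.2])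
      (by linarith [b12.2, bDe.1]) (by norm_num)
    rw [hT12, hS12]
    constructor <;> linarith [e.1, e.2, b12.1, b12.2, bH.1, bH.2, bW.1, bW.2, bD.1, bD.2]
  have bt22 : 5 < T22 t ∧ T22 t < 5.001 := by
    have e := prod (A22 t - 25 * De t / 10 ^ 6) 6 (by linarith [b22.1, bDe.2])
      (by linarith [b22.2, bDe.1]) (by norm_num)
    rw [hT22, hS22]
    constructor <;> linarith [e.1, e.2, b22.1, b22.2, bH.1, bH.2, bW.1, bW.2, bD.1, bD.2]
  refine ⟨{
    a11 := A11 t, a12 := A12 t, a22 := A22 t, N := N t, Ga := 10 ^ 6 * De t, ze := ze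
    D := D t, D2 := eta * (H t - t * De t) * 10 ^ 6, al0 := eta * t, al1 := eta * (1 - t)
    lam := lam, s11 := S11 t, s12 := S12 t, s22 := S22 t, t11 := T11 t, t12 := T12 t, t22 := T22 t
    E11 := by rw [hT11]; ring
    E12 := by rw [hT12]; ring
    E22 := by rw [hT22]; ring
    E13 := by linear_combination (1 / 10 ^ 6) * c1 - (1 / 10 ^ 6) * c5
    E23 := by linear_combination (1 / 10 ^ 6) * c2 - (1 / 10 ^ 6) * c6
    E33 := ?_
    Q0 := by
      have e2 : (1 + 250 / 10 ^ 12 : ℝ) = 1 + n0 := rfl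
      rw [e2]; linear_combination c4
    Q1 := by
      have e1 : qSq1 t = (A11 t * 100 + 2 * A12 t * 10 + A22 t) / 10 ^ 12 + N t := rfl
      have e2 : (1 + 101 / 10 ^ 12 : ℝ) = 1 + n := rfl
      rw [e2, ← hq, e1]; ring
    F11 := ?_
    F12 := ?_
    F22 := ?_
    F13 := ?_
    F23 := ?_
    F33 := ?_
    ba11 := b11, ba12 := b12, ba22 := b22, bN := bN
    bGa := by constructor <;> linarith [bDe.1, bDe.2]
    bze := bze
    bD := bD
    bD2 := by
      rw [beta]; constructor <;> linarith [bdf.1, bdf.2]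
    bal0 := bal0
    bal1 := by rw [beta]; constructor <;> linarith
    blam := by constructor <;> norm_num [lam]
    bs11 := bs11, bs12 := bs12, bs22 := bs22, bt11 := bt11, bt12 := bt12, bt22 := bt22 }⟩
  · linear_combination (15 / 10 ^ 12) * c1 + (5 / 10 ^ 12) * c2 - c3 + c7 - (10 / 10 ^ 12) * c5
      - (1 / 10 ^ 12) * c6
  · rw [hT11, hS11, hlam]
    linear_combination (100 / 10 ^ 12) * hF
  · rw [hT12, hS12, hlam]
    linear_combination (10 / 10 ^ 12) * hF
  · rw [hT22, hS22, hlam]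
    linear_combination (1 / 10 ^ 12) * hF
  · linear_combination (1 / 10 ^ 6) * c5 + (lam / 10 ^ 6) * c1 - (10 / 10 ^ 6) * hF
      + (15 * L t + 10 * W t) * hk + 15 * eta * hL
  · linear_combination (1 / 10 ^ 6) * c6 + (lam / 10 ^ 6) * c2 - (1 / 10 ^ 6) * hF
      + (5 * L t + W t) * hk + 5 * eta * hL
  · linear_combination (10 / 10 ^ 12) * c5 + (1 / 10 ^ 12) * c6 - c7 + hF
      - lam * ((15 / 10 ^ 12) * c1 + (5 / 10 ^ 12) * c2 - c3)
      - (N t - 10 ^ 6 * (H t + W t)) * hlam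

end P2GD.Cycle
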