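import Mathlib
import Pool.Agent.Lib_helper66.P2GD.Basic

open Filter Topology Matrix
open scoped Matrix.Norms.Frobenius

namespace P2GD

/-- squared Euclidean norm of a vector in `ℝ³` -/
def nsq (v : Fin 3 → ℝ) : ℝ := v 0 ^ 2 + v 1 ^ 2 + v 2 ^ 2

lemma nsq_nonneg (v : Fin 3 → ℝ) : 0 ≤ nsq v := by unfold nsq; positivity

lemma nsq_pos {v : Fin 3 → ℝ} (hv : v ≠ 0) : 0 < nsq v := by
  rcases (nsq_nonneg v).lt_or_eq with h | h
  · exact h
  · exfalso
    apply hv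
    unfold nsq at h
    have h0 : v 0 = 0 := by nlinarith [sq_nonneg (v 0), sq_nonneg (v 1), sq_nonneg (v 2)]
    have h1 : v 1 = 0 := by nlinarith [sq_nonneg (v 0), sq_nonneg (v 1), sq_nonneg (v 2)]
    have h2 : v 2 = 0 := by nlinarith [sq_nonneg (v 0), sq_nonneg (v 1), sq_nonneg (v 2)]
    funext i
    fin_cases i <;> simp [h0, h1, h2]

lemma mulVec_apply3 (A : M3) (v : Fin 3 → ℝ) (i : Fin 3) :
    (A *ᵥ v) i = A i 0 * v 0 + A i 1 * v 1 + A i 2 * v 2 := by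
  simp [Matrix.mulVec, dotProduct, Fin.sum_univ_three]

lemma row_cs (a b c x y z : ℝ) :
    (a * x + b * y + c * z) ^ 2 ≤ (a ^ 2 + b ^ 2 + c ^ 2) * (x ^ 2 + y ^ 2 + z ^ 2) := by
  nlinarith [sq_nonneg (a * y - b * x), sq_nonneg (a * z - c * x), sq_nonneg (b * z - c * y)]

lemma nsq_mulVec_le (A : M3) (v : Fin 3 → ℝ) : nsq (A *ᵥ v) ≤ ‖A‖ ^ 2 * nsq v := by
  rw [norm_sq3]
  simp only [nsq, mulVec_apply3]
  have h0 := row_cs (A 0 0) (A 0 1) (A 0 2) (v 0) (v 1) (v 2)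
  have h1 := row_cs (A 1 0) (A 1 1) (A 1 2) (v 0) (v 1) (v 2)
  have h2 := row_cs (A 2 0) (A 2 1) (A 2 2) (v 0) (v 1) (v 2)
  linarith

/-- A sufficient criterion for being a nearest point of the determinantal variety. -/
lemma mem_proj_of {W Y : M3} {m2 : ℝ} (hY : Y.det = 0) (h1 : ‖W - Y‖ ^ 2 ≤ m2)
    (h2 : ∀ v : Fin 3 → ℝ, m2 * nsq v ≤ nsq (W *ᵥ v)) : Y ∈ proj (detVar 3 3 2) W := by
  refine ⟨mem_detVar_iff.2 hY, fun Z hZ => ?_⟩
  obtain ⟨v, hv, hZv⟩ := Matrix.exists_mulVec_eq_zero_iff.2 (mem_detVar_iff.1 hZ)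
  have h3 : (W - Z) *ᵥ v = W *ᵥ v := by rw [Matrix.sub_mulVec, hZv, sub_zero]
  have h4 := nsq_mulVec_le (W - Z) v
  rw [h3] at h4
  have h5 := h2 v
  have h6 := nsq_pos hv
  have h7 : m2 ≤ ‖W - Z‖ ^ 2 := by
    by_contra hc
    push Not at hc
    nlinarith
  exact le_of_sq_le_sq (h1.trans h7) (norm_nonneg _)

/-- a symmetric matrix of rank at most two with null vector `(u, v, 1)` -/
def XM (a b c u v : ℝ) : M3 :=
  !![a, b, -(a * u + b * v); b, c, -(b * u + c * v);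
     -(a * u + b * v), -(b * u + c * v), a * u ^ 2 + 2 * b * u * v + c * v ^ 2]

def qv (u v : ℝ) : Fin 3 → ℝ := ![u, v, 1]

lemma XM_mulVec (a b c u v : ℝ) : XM a b c u v *ᵥ qv u v = 0 := by
  funext i
  fin_cases i <;> simp [XM, qv, Matrix.mulVec, dotProduct, Fin.sum_univ_three] <;> ring

lemma XM_det (a b c u v : ℝ) : (XM a b c u v).det = 0 := by
  rw [Matrix.det_fin_three]
  simp [XM]
  ring

lemma nsq_qv (u v : ℝ) : nsq (qv u v) = u ^ 2 + v ^ 2 + 1 := by simp [nsq, qv]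

lemma nsq_qv_pos (u v : ℝ) : 0 < nsq (qv u v) := by rw [nsq_qv]; positivity

/-- rank one matrix `q qᵀ` -/
def QM (u v : ℝ) : M3 := !![u * u, u * v, u; u * v, v * v, v; u, v, 1]

lemma QM_norm_sq (u v : ℝ) : ‖QM u v‖ ^ 2 = (u ^ 2 + v ^ 2 + 1) ^ 2 := by
  rw [norm_sq3]; simp [QM]; ring

/-- `XM - w Q` has `XM` as a projection if the leading block of `XM` is large. -/
lemma XM_mem_proj {a b c u v w s : ℝ} (hs : ∀ x y : ℝ, s * (x ^ 2 + y ^ 2) ≤
    (a * x + b * y) ^ 2 + (b * x + c * y) ^ 2) (hw : (w * (u ^ 2 + v ^ 2 + 1)) ^ 2 ≤ s) :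
    XM a b c u v ∈ proj (detVar 3 3 2) (XM a b c u v - w • QM u v) := by
  set n := u ^ 2 + v ^ 2 + 1 with hn
  have hnpos : 0 < n := by positivity
  refine mem_proj_of (m2 := (w * n) ^ 2) (XM_det _ _ _ _ _) ?_ ?_
  · have : XM a b c u v - w • QM u v - XM a b c u v = -(w • QM u v) := by abel
    rw [this, norm_neg, norm_smul, mul_pow, QM_norm_sq, Real.norm_eq_abs, sq_abs, ← hn, mul_pow]
  · intro z
    -- W z = X p - w (q·z) q with p = (z0 - z2 u, z1 - z2 v, 0)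
    set x := z 0 - z 2 * u with hx
    set y := z 1 - z 2 * v with hy
    set d := u * z 0 + v * z 1 + z 2 with hd
    have e0 : ((XM a b c u v - w • QM u v) *ᵥ z) 0 = (a * x + b * y) - w * d * u := by
      rw [mulVec_apply3]; simp [XM, QM, hx, hy, hd]; ring
    have e1 : ((XM a b c u v - w • QM u v) *ᵥ z) 1 = (b * x + c * y) - w * d * v := by
      rw [mulVec_apply3]; simp [XM, QM, hx, hy, hd]; ring
    have e2 : ((XM a b c u v - w • QM u v) *ᵥ z) 2 =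
        -(u * (a * x + b * y) + v * (b * x + c * y)) - w * d := by
      rw [mulVec_apply3]; simp [XM, QM, hx, hy, hd]; ring
    have e3 : nsq ((XM a b c u v - w • QM u v) *ᵥ z) =
        (a * x + b * y) ^ 2 + (b * x + c * y) ^ 2 + (u * (a * x + b * y) + v * (b * x + c * y)) ^ 2
        + w ^ 2 * d ^ 2 * n := by
      simp only [nsq, e0, e1, e2, hn]; ring
    have e4 : n * nsq z = d ^ 2 + (n * (x ^ 2 + y ^ 2) - (u * x + v * y) ^ 2) := by
      simp only [nsq, hn, hx, hy, hd]; ring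
    rw [e3]
    have e5 := hs x y
    have e6 : (w * n) ^ 2 * nsq z = w ^ 2 * n * (n * nsq z) := by ring
    rw [e6, e4]
    have e7 : w ^ 2 * n * (n * (x ^ 2 + y ^ 2) - (u * x + v * y) ^ 2) ≤
        w ^ 2 * n * (n * (x ^ 2 + y ^ 2)) := by
      apply mul_le_mul_of_nonneg_left _ (by positivity)
      nlinarith [sq_nonneg (u * x + v * y)]
    have e8 : w ^ 2 * n * (n * (x ^ 2 + y ^ 2)) = (w * n) ^ 2 * (x ^ 2 + y ^ 2) := by ring
    have e9 : (w * n) ^ 2 * (x ^ 2 + y ^ 2) ≤ s * (x ^ 2 + y ^ 2) :=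
      mul_le_mul_of_nonneg_right hw (by positivity)
    nlinarith [sq_nonneg (u * (a * x + b * y) + v * (b * x + c * y))]

end P2GD
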