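import Mathlib
import Pool.Agent.Lib_helper66.P2GD.Proj

open Filter Topology Matrix
open scoped Matrix.Norms.Frobenius

namespace P2GD

/-- symmetric 3×3 matrix -/
def Sy (a b c d e f : ℝ) : M3 := !![a, b, d; b, c, e; d, e, f]

lemma Sy_mulVec (a b c d e f : ℝ) (v : Fin 3 → ℝ) :
    Sy a b c d e f *ᵥ v = ![a * v 0 + b * v 1 + d * v 2, b * v 0 + c * v 1 + e * v 2,
      d * v 0 + e * v 1 + f * v 2] := by
  funext i
  fin_cases i <;> simp [Sy, Matrix.mulVec, dotProduct, Fin.sum_univ_three]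

lemma nsq_smul (s : ℝ) (v : Fin 3 → ℝ) : nsq (s • v) = s ^ 2 * nsq v := by
  simp [nsq]; ring

lemma quad_lin_zero {B C : ℝ} (h : ∀ τ : ℝ, 0 ≤ 2 * τ * B + τ ^ 2 * C) : B = 0 := by
  by_contra hB
  have hC : 0 < |C| + 1 := by positivity
  have h1 := h (-B / (|C| + 1))
  have h2 : 2 * (-B / (|C| + 1)) * B + (-B / (|C| + 1)) ^ 2 * C =
      B ^ 2 / (|C| + 1) * (C / (|C| + 1) - 2) := by field_simp; ring
  rw [h2] at h1
  have h3 : 0 < B ^ 2 / (|C| + 1) := by positivity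
  have h4 : C / (|C| + 1) ≤ 1 := by
    rw [div_le_one hC]
    linarith [le_abs_self C]
  nlinarith

lemma exists_min_sphere (A : M3) : ∃ e : Fin 3 → ℝ, nsq e = 1 ∧
    ∀ v : Fin 3 → ℝ, nsq (A *ᵥ e) * nsq v ≤ nsq (A *ᵥ v) := by
  have hc : Continuous (nsq) := by unfold nsq; fun_prop
  have hcA : Continuous fun v : Fin 3 → ℝ => nsq (A *ᵥ v) := by
    simp only [nsq, mulVec_apply3]; fun_prop
  have hK : IsCompact {v : Fin 3 → ℝ | nsq v = 1} := by
    apply Metric.isCompact_of_isClosed_isBounded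
    · exact isClosed_eq hc continuous_const
    · refine (Metric.isBounded_closedBall (x := (0 : Fin 3 → ℝ)) (r := 1)).subset ?_
      intro v hv
      rw [mem_closedBall_zero_iff, pi_norm_le_iff_of_nonneg zero_le_one]
      intro i
      rw [Real.norm_eq_abs, abs_le_one_iff_mul_self_le_one]
      have hv' : v 0 ^ 2 + v 1 ^ 2 + v 2 ^ 2 = 1 := hv
      fin_cases i <;> simp only [Fin.zero_eta, Fin.mk_one, Fin.reduceFinMk] <;>
        nlinarith [sq_nonneg (v 0), sq_nonneg (v 1), sq_nonneg (v 2)]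
  have hne : ({v : Fin 3 → ℝ | nsq v = 1}).Nonempty := ⟨![1, 0, 0], by simp [nsq]⟩
  obtain ⟨e, he, hmin⟩ := hK.exists_isMinOn hne hcA.continuousOn
  refine ⟨e, he, fun v => ?_⟩
  by_cases hv : v = 0
  · subst hv
    simp [nsq]
  have hpos := nsq_pos hv
  set s := Real.sqrt (nsq v) with hs
  have hs0 : 0 < s := Real.sqrt_pos.2 hpos
  have hs2 : s ^ 2 = nsq v := Real.sq_sqrt hpos.le
  have h1 : nsq (s⁻¹ • v) = 1 := by
    rw [nsq_smul, inv_pow, hs2]
    field_simp
  have h2 := hmin h1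
  simp only [Set.mem_ofPred_eq, Matrix.mulVec_smul, nsq_smul] at h2
  rw [inv_pow, hs2] at h2
  have h3 : nsq (A *ᵥ e) ≤ (nsq v)⁻¹ * nsq (A *ᵥ v) := h2
  have h4 : nsq (A *ᵥ e) * nsq v ≤ ((nsq v)⁻¹ * nsq (A *ᵥ v)) * nsq v :=
    mul_le_mul_of_nonneg_right h3 hpos.le
  have h5 : ((nsq v)⁻¹ * nsq (A *ᵥ v)) * nsq v = nsq (A *ᵥ v) := by
    field_simp
  linarith

/-- determinant of `Sy - θ` -/
def chi (a b c d e f θ : ℝ) : ℝ :=
  (a - θ) * ((c - θ) * (f - θ) - e ^ 2) - b * (b * (f - θ) - e * d) + d * (b * e - (c - θ) * d)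

lemma chi_eq_zero {a b c d e f θ x y z : ℝ} (h0 : a * x + b * y + d * z = θ * x)
    (h1 : b * x + c * y + e * z = θ * y) (h2 : d * x + e * y + f * z = θ * z)
    (hne : chi a b c d e f θ ≠ 0) : x = 0 ∧ y = 0 ∧ z = 0 := by
  have e0 : chi a b c d e f θ * x = 0 := by
    unfold chi
    linear_combination ((c - θ) * (f - θ) - e ^ 2) * h0 - (b * (f - θ) - e * d) * h1 +
      (b * e - (c - θ) * d) * h2
  have e1 : chi a b c d e f θ * y = 0 := by
    unfold chi
    linear_combination (-(b * (f - θ) - d * e)) * h0 + ((a - θ) * (f - θ) - d ^ 2) * h1 -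
      ((a - θ) * e - b * d) * h2
  have e2 : chi a b c d e f θ * z = 0 := by
    unfold chi
    linear_combination (b * e - (c - θ) * d) * h0 - ((a - θ) * e - b * d) * h1 +
      ((a - θ) * (c - θ) - b ^ 2) * h2
  exact ⟨(mul_eq_zero.1 e0).resolve_left hne, (mul_eq_zero.1 e1).resolve_left hne,
    (mul_eq_zero.1 e2).resolve_left hne⟩

lemma exists_min_eigen (a b c d e f M : ℝ) (hM : 0 ≤ M) (v0 : Fin 3 → ℝ) (hv0 : v0 ≠ 0)
    (htest : nsq (Sy a b c d e f *ᵥ v0) ≤ M ^ 2 * nsq v0)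
    (hchi : ∀ θ, -M ≤ θ → θ ≤ 4 → chi a b c d e f θ ≠ 0) :
    ∃ (x y z m : ℝ), x ^ 2 + y ^ 2 + z ^ 2 = 1 ∧ 4 < m ∧ m ≤ M ∧
      a * x + b * y + d * z = m * x ∧ b * x + c * y + e * z = m * y ∧
      d * x + e * y + f * z = m * z ∧
      ∀ v : Fin 3 → ℝ, m ^ 2 * nsq v ≤ nsq (Sy a b c d e f *ᵥ v) := by
  obtain ⟨w, hw, hmin⟩ := exists_min_sphere (Sy a b c d e f)
  set m2 := nsq (Sy a b c d e f *ᵥ w) with hm2
  have hm2n : 0 ≤ m2 := nsq_nonneg _
  have hm2M : m2 ≤ M ^ 2 := by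
    have h1 := hmin v0
    have h2 := nsq_pos hv0
    by_contra hc
    push Not at hc
    nlinarith
  set x := w 0 with hx
  set y := w 1 with hy
  set z := w 2 with hz
  have hunit : x ^ 2 + y ^ 2 + z ^ 2 = 1 := hw
  set X := a * x + b * y + d * z with hX
  set Y := b * x + c * y + e * z with hY
  set Z := d * x + e * y + f * z with hZ
  have hm2' : m2 = X ^ 2 + Y ^ 2 + Z ^ 2 := by
    rw [hm2, Sy_mulVec]; simp [nsq, hX, hY, hZ, hx, hy, hz]
  -- first order conditions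
  have first : ∀ p q r : ℝ, X * (a * p + b * q + d * r) + Y * (b * p + c * q + e * r) +
      Z * (d * p + e * q + f * r) - m2 * (x * p + y * q + z * r) = 0 := by
    intro p q r
    apply quad_lin_zero (C := (a * p + b * q + d * r) ^ 2 + (b * p + c * q + e * r) ^ 2 +
      (d * p + e * q + f * r) ^ 2 - m2 * (p ^ 2 + q ^ 2 + r ^ 2))
    intro τ
    have h1 := hmin ![x + τ * p, y + τ * q, z + τ * r]
    rw [Sy_mulVec] at h1
    simp only [nsq, Matrix.cons_val_zero, Matrix.cons_val_one, Matrix.cons_val] at h1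
    have h2 : m2 * (x ^ 2 + y ^ 2 + z ^ 2) = X ^ 2 + Y ^ 2 + Z ^ 2 := by rw [hunit, mul_one, hm2']
    have h3 : (a * (x + τ * p) + b * (y + τ * q) + d * (z + τ * r)) ^ 2 +
        (b * (x + τ * p) + c * (y + τ * q) + e * (z + τ * r)) ^ 2 +
        (d * (x + τ * p) + e * (y + τ * q) + f * (z + τ * r)) ^ 2 =
        (X ^ 2 + Y ^ 2 + Z ^ 2) + 2 * τ * (X * (a * p + b * q + d * r) + Y * (b * p + c * q + e * r) +
      Z * (d * p + e * q + f * r)) + τ ^ 2 * ((a * p + b * q + d * r) ^ 2 +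
      (b * p + c * q + e * r) ^ 2 + (d * p + e * q + f * r) ^ 2) := by
      simp only [hX, hY, hZ]; ring
    rw [h3] at h1
    have h4 : m2 * ((x + τ * p) ^ 2 + (y + τ * q) ^ 2 + (z + τ * r) ^ 2) =
      (X ^ 2 + Y ^ 2 + Z ^ 2) + 2 * τ * (m2 * (x * p + y * q + z * r)) +
        τ ^ 2 * (m2 * (p ^ 2 + q ^ 2 + r ^ 2)) := by rw [← h2]; ring
    rw [h4] at h1
    linarith
  have f0 := first 1 0 0
  have f1 := first 0 1 0
  have f2 := first 0 0 1
  set m := Real.sqrt m2 with hm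
  have hmm : m * m = m2 := Real.mul_self_sqrt hm2n
  have hm0 : 0 ≤ m := Real.sqrt_nonneg _
  have hmM : m ≤ M := by
    rw [hm]; exact Real.sqrt_le_iff.2 ⟨hM, hm2M⟩
  -- (Ĝ - m) w is an eigenvector for -m
  have hz0 := chi_eq_zero (a := a) (b := b) (c := c) (d := d) (e := e) (f := f) (θ := -m)
    (x := X - m * x) (y := Y - m * y) (z := Z - m * z)
    (by linear_combination f0 - x * hmm + m * hX) (by linear_combination f1 - y * hmm + m * hY)
    (by linear_combination f2 - z * hmm + m * hZ)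
    (hchi _ (by linarith) (by linarith))
  obtain ⟨z0, z1, z2⟩ := hz0
  have hm4 : 4 < m := by
    by_contra hc
    push Not at hc
    have h1 := chi_eq_zero (a := a) (b := b) (c := c) (d := d) (e := e) (f := f) (θ := m)
      (x := x) (y := y) (z := z) (by linear_combination z0) (by linear_combination z1)
      (by linear_combination z2) (hchi _ (by linarith) hc)
    obtain ⟨g0, g1, g2⟩ := h1
    rw [g0, g1, g2] at hunit
    norm_num at hunit
  refine ⟨x, y, z, m, hunit, hm4, hmM, by linear_combination z0, by linear_combination z1,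
    by linear_combination z2, fun v => ?_⟩
  have h1 := hmin v
  rw [← hmm] at h1
  nlinarith

end P2GD
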