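import Mathlib
import Pool.Agent.Lib_helper66.P2GD.Eigen

open Filter Topology Matrix
open scoped Matrix.Norms.Frobenius

namespace P2GD

/-- the Frobenius inner product -/
def ip (A B : M3) : ℝ := ∑ i, ∑ j, A i j * B i j

lemma ip_eq (A B : M3) : ip A B = A 0 0 * B 0 0 + A 0 1 * B 0 1 + A 0 2 * B 0 2 + A 1 0 * B 1 0 +
    A 1 1 * B 1 1 + A 1 2 * B 1 2 + A 2 0 * B 2 0 + A 2 1 * B 2 1 + A 2 2 * B 2 2 := by
  simp only [ip, Fin.sum_univ_three]
  ring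

lemma ip_add (A B C : M3) : ip A (B + C) = ip A B + ip A C := by
  simp only [ip_eq, Matrix.add_apply]; ring

lemma ip_smul (A B : M3) (t : ℝ) : ip A (t • B) = t * ip A B := by
  simp only [ip_eq, Matrix.smul_apply, smul_eq_mul]; ring

/-- `e eᵀ` for `e = (x, y, z)` -/
def EE (x y z : ℝ) : M3 := Sy (x * x) (x * y) (y * y) (x * z) (y * z) (z * z)

/-- Given a minimal eigenpair of `Ĝ`, a nearest point for `W = -α Ĝ`. -/
lemma trial_mem_proj {a b c d e f x y z m α : ℝ} (hu : x ^ 2 + y ^ 2 + z ^ 2 = 1)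
    (h0 : a * x + b * y + d * z = m * x)
    (h1 : b * x + c * y + e * z = m * y) (h2 : d * x + e * y + f * z = m * z)
    (hmin : ∀ v : Fin 3 → ℝ, m ^ 2 * nsq v ≤ nsq (Sy a b c d e f *ᵥ v)) :
    -(α • Sy a b c d e f) + (α * m) • EE x y z ∈ proj (detVar 3 3 2) (-(α • Sy a b c d e f)) := by
  refine mem_proj_of (m2 := (α * m) ^ 2) ?_ ?_ ?_
  · apply Matrix.exists_mulVec_eq_zero_iff.1
    refine ⟨![x, y, z], ?_, ?_⟩
    · intro h
      have hx : x = 0 := by simpa using congrFun h 0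
      have hy : y = 0 := by simpa using congrFun h 1
      have hz : z = 0 := by simpa using congrFun h 2
      rw [hx, hy, hz] at hu
      norm_num at hu
    · funext i
      rw [mulVec_apply3]
      fin_cases i
      · simp [EE, Sy]
        linear_combination (-α) * h0 + (α * m * x) * hu
      · simp [EE, Sy]
        linear_combination (-α) * h1 + (α * m * y) * hu
      · simp [EE, Sy]
        linear_combination (-α) * h2 + (α * m * z) * hu
  · have : -(α • Sy a b c d e f) - (-(α • Sy a b c d e f) + (α * m) • EE x y z) =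
        -((α * m) • EE x y z) := by abel
    rw [this, norm_neg, norm_smul, mul_pow, Real.norm_eq_abs, sq_abs]
    have h3 : ‖EE x y z‖ ^ 2 = 1 := by
      rw [norm_sq3]
      simp [EE, Sy]
      linear_combination (x ^ 2 + y ^ 2 + z ^ 2 + 1) * hu
    rw [h3, mul_one]
  · intro v
    have h3 : nsq (-(α • Sy a b c d e f) *ᵥ v) = α ^ 2 * nsq (Sy a b c d e f *ᵥ v) := by
      rw [Matrix.neg_mulVec, Matrix.smul_mulVec, ← neg_smul, nsq_smul, neg_sq]
    rw [h3]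
    have h4 := mul_le_mul_of_nonneg_left (hmin v) (sq_nonneg α)
    calc (α * m) ^ 2 * nsq v = α ^ 2 * (m ^ 2 * nsq v) := by ring
      _ ≤ _ := h4

lemma ip_EE (a11 a12 a22 N x y z : ℝ) :
    ip (Sy a11 a12 a22 0 0 N) (EE x y z) = a11 * x ^ 2 + 2 * a12 * x * y + a22 * y ^ 2 +
      N * z ^ 2 := by
  rw [ip_eq]; simp [EE, Sy]; ring

lemma chi_neg {a b c d e f M K θ : ℝ} (ha : 11.999 ≤ a) (ha' : a ≤ 12.002) (hb : -0.001 ≤ b)
    (hb' : b ≤ 0.001) (hc : 4.999 ≤ c) (hf : -0.002 ≤ f) (hf' : f ≤ 0.002) (hM : 0 ≤ M)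
    (hK : (12.002 + M) * (M + 0.002) ≤ K) (hd : K + 1 ≤ d ^ 2) (hd' : d ^ 2 ≤ 226)
    (he : e ^ 2 ≤ 26) (hθ : -M ≤ θ) (hθ' : θ ≤ 4) : chi a b c d e f θ < 0 := by
  have e1 : chi a b c d e f θ = (c - θ) * ((a - θ) * (f - θ) - d ^ 2) - (a - θ) * e ^ 2 +
      2 * b * d * e - b ^ 2 * (f - θ) := by unfold chi; ring
  rw [e1]
  have hA : 0 ≤ a - θ := by linarith
  have hB : 0.999 ≤ c - θ := by linarith
  have hAC : (a - θ) * (f - θ) ≤ K := by
    rcases le_or_gt (f - θ) 0 with h | h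
    · have h1 : (a - θ) * (f - θ) ≤ 0 := mul_nonpos_of_nonneg_of_nonpos hA h
      have h2 : 0 ≤ (12.002 + M) * (M + 0.002) := by positivity
      linarith
    · refine le_trans ?_ hK
      exact mul_le_mul (by linarith) (by linarith) h.le (by linarith)
  have h1 : (c - θ) * ((a - θ) * (f - θ) - d ^ 2) ≤ -0.999 := by nlinarith
  have h2 : 0 ≤ (a - θ) * e ^ 2 := mul_nonneg hA (sq_nonneg e)
  have h3 : 2 * b * d * e ≤ 0.001 * (d ^ 2 + e ^ 2) := by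
    nlinarith [sq_nonneg (d - e), sq_nonneg (d + e), mul_nonneg (by linarith : 0 ≤ b + 0.001)
      (sq_nonneg (d - e)), mul_nonneg (by linarith : 0 ≤ 0.001 - b) (sq_nonneg (d + e))]
  have h4 : -(b ^ 2 * (f - θ)) ≤ 0.00001 := by
    have h5 : b ^ 2 ≤ 0.000001 := by nlinarith
    have h6 : -(f - θ) ≤ 5 := by linarith
    nlinarith [sq_nonneg b]
  linarith

lemma e3_bound {a b d e f M x y z m dhi elo X0 Y0 : ℝ} (ha : 11.999 ≤ a)
    (hb : -0.001 ≤ b) (hb' : b ≤ 0.001) (hf : -0.002 ≤ f) (hf' : f ≤ 0.002)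
    (hd' : d ^ 2 ≤ dhi) (he : elo ≤ e ^ 2) (hm : 4 < m) (hmM : m ≤ M) (hM : M ≤ 6)
    (hu : x ^ 2 + y ^ 2 + z ^ 2 = 1)
    (h0 : a * x + b * y + d * z = m * x) (h2 : d * x + e * y + f * z = m * z)
    (helo : 0 < elo) (hX0 : 2e-6 + 2 * dhi / 1000 ≤ (11.999 - M) ^ 2 * X0)
    (hY0 : 2 * (M + 0.002) ^ 2 / 1000 + 2 * dhi * X0 ≤ elo * Y0) (hsum : X0 + Y0 + 1 / 1000 < 1) :
    1 / 1000 ≤ z ^ 2 := by
  by_contra hc
  push Not at hc
  have hy1 : y ^ 2 ≤ 1 := by nlinarith [sq_nonneg x, sq_nonneg z]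
  have hd0 : 0 ≤ dhi := (sq_nonneg d).trans hd'
  have hx1 : (11.999 - M) ^ 2 * x ^ 2 ≤ 2e-6 + 2 * dhi / 1000 := by
    have e1 : ((a - m) * x) ^ 2 = (b * y + d * z) ^ 2 := by
      have : (a - m) * x = -(b * y + d * z) := by linear_combination h0
      rw [this]; ring
    have e2 : (b * y + d * z) ^ 2 ≤ 2 * (b ^ 2 * y ^ 2) + 2 * (d ^ 2 * z ^ 2) := by
      nlinarith [sq_nonneg (b * y - d * z)]
    have e3 : b ^ 2 * y ^ 2 ≤ 0.000001 * 1 :=
      mul_le_mul (by nlinarith) hy1 (sq_nonneg y) (by norm_num)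
    have e4 : d ^ 2 * z ^ 2 ≤ dhi * (1 / 1000) := mul_le_mul hd' hc.le (sq_nonneg z) hd0
    have e5 : (11.999 - M) ^ 2 * x ^ 2 ≤ (a - m) ^ 2 * x ^ 2 := by
      apply mul_le_mul_of_nonneg_right _ (sq_nonneg x)
      apply pow_le_pow_left₀ (by linarith) (by linarith)
    have e6 : (a - m) ^ 2 * x ^ 2 = ((a - m) * x) ^ 2 := by ring
    linarith
  have hx2 : x ^ 2 ≤ X0 := by
    have h3 : (0:ℝ) < (11.999 - M) ^ 2 := by
      have : 0 < 11.999 - M := by linarith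
      positivity
    by_contra hcx
    push Not at hcx
    nlinarith
  have hy2 : elo * y ^ 2 ≤ 2 * (M + 0.002) ^ 2 / 1000 + 2 * dhi * X0 := by
    have e1 : (e * y) ^ 2 = ((m - f) * z - d * x) ^ 2 := by
      have : e * y = (m - f) * z - d * x := by linear_combination h2
      rw [this]
    have e2 : ((m - f) * z - d * x) ^ 2 ≤ 2 * ((m - f) ^ 2 * z ^ 2) + 2 * (d ^ 2 * x ^ 2) := by
      nlinarith [sq_nonneg ((m - f) * z + d * x)]
    have e3 : (m - f) ^ 2 * z ^ 2 ≤ (M + 0.002) ^ 2 * (1 / 1000) := by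
      apply mul_le_mul _ hc.le (sq_nonneg z) (sq_nonneg _)
      apply pow_le_pow_left₀ (by linarith) (by linarith)
    have e4 : d ^ 2 * x ^ 2 ≤ dhi * X0 := mul_le_mul hd' hx2 (sq_nonneg x) hd0
    have e5 : elo * y ^ 2 ≤ e ^ 2 * y ^ 2 := mul_le_mul_of_nonneg_right he (sq_nonneg y)
    have e6 : e ^ 2 * y ^ 2 = (e * y) ^ 2 := by ring
    linarith
  have hy3 : y ^ 2 ≤ Y0 := by
    have h3 : elo * y ^ 2 ≤ elo * Y0 := hy2.trans hY0
    exact le_of_mul_le_mul_left h3 helo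
  linarith

/-- Minimal eigenpairs of matrices close to the two model matrices. -/
lemma min_eig {a b c d e f M K dhi elo X0 Y0 x0 y0 ε : ℝ} (ha : 11.999 ≤ a) (ha' : a ≤ 12.002)
    (hb : -0.001 ≤ b) (hb' : b ≤ 0.001) (hc : 4.999 ≤ c) (hf : -0.002 ≤ f)
    (hf' : f ≤ 0.002) (hM0 : 0 ≤ M) (hM : M ≤ 6)
    (hK : (12.002 + M) * (M + 0.002) ≤ K) (hd : K + 1 ≤ d ^ 2) (hd' : d ^ 2 ≤ dhi)
    (hdhi : dhi ≤ 226) (he : e ^ 2 ≤ 26) (he' : elo ≤ e ^ 2)
    (helo : 0 < elo) (hX0 : 2e-6 + 2 * dhi / 1000 ≤ (11.999 - M) ^ 2 * X0)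
    (hY0 : 2 * (M + 0.002) ^ 2 / 1000 + 2 * dhi * X0 ≤ elo * Y0) (hsum : X0 + Y0 + 1 / 1000 < 1)
    (hε : ε ^ 2 = 1)
    (htest : (a * x0 + b * y0 + d * ε) ^ 2 + (b * x0 + c * y0 + e * ε) ^ 2 +
      (d * x0 + e * y0 + f * ε) ^ 2 ≤ M ^ 2 * (x0 ^ 2 + y0 ^ 2 + 1)) :
    ∃ (x y z m : ℝ), x ^ 2 + y ^ 2 + z ^ 2 = 1 ∧ 4 < m ∧ m ≤ M ∧ 1 / 1000 ≤ z ^ 2 ∧
      a * x + b * y + d * z = m * x ∧ b * x + c * y + e * z = m * y ∧
      d * x + e * y + f * z = m * z ∧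
      ∀ v : Fin 3 → ℝ, m ^ 2 * nsq v ≤ nsq (Sy a b c d e f *ᵥ v) := by
  obtain ⟨x, y, z, m, hu, hm, hmM, h0, h1, h2, hmin⟩ := exists_min_eigen a b c d e f M hM0
    ![x0, y0, ε] (by
      intro h
      have h3 : ε = 0 := by simpa using congrFun h 2
      rw [h3] at hε
      norm_num at hε) (by
      rw [Sy_mulVec]
      simp only [nsq, Matrix.cons_val_zero, Matrix.cons_val_one, Matrix.cons_val]
      rw [hε]
      exact htest) (fun θ h3 h4 => (chi_neg ha ha' hb hb' hc hf hf' hM0 hK hd (hd'.trans hdhi) he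
        h3 h4).ne)
  exact ⟨x, y, z, m, hu, hm, hmM, e3_bound ha hb hb' hf hf' hd' he' hm hmM hM hu h0 h2 helo hX0
    hY0 hsum, h0, h1, h2, hmin⟩

/-- state 0 -/
lemma min_eig0 {a b c d e f ε : ℝ} (ha : 11.999 ≤ a) (ha' : a ≤ 12.002)
    (hb : -0.001 ≤ b) (hb' : b ≤ 0.001) (hc : 4.999 ≤ c) (hc' : c ≤ 5.002) (hf : -0.002 ≤ f)
    (hf' : f ≤ 0.002) (hε : ε ^ 2 = 1) (hd : 14.999 ≤ ε * d) (hd' : ε * d ≤ 15.002)
    (he : 4.999 ≤ ε * e) (he' : ε * e ≤ 5.002) :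
    ∃ (x y z m : ℝ), x ^ 2 + y ^ 2 + z ^ 2 = 1 ∧ 4 < m ∧ m ≤ 6 ∧ 1 / 1000 ≤ z ^ 2 ∧
      a * x + b * y + d * z = m * x ∧ b * x + c * y + e * z = m * y ∧
      d * x + e * y + f * z = m * z ∧
      ∀ v : Fin 3 → ℝ, m ^ 2 * nsq v ≤ nsq (Sy a b c d e f *ᵥ v) := by
  set d' := ε * d with hdd
  set e' := ε * e with hee
  have e1 : d ^ 2 = d' ^ 2 := by rw [hdd, mul_pow, hε, one_mul]
  have e2 : e ^ 2 = e' ^ 2 := by rw [hee, mul_pow, hε, one_mul]
  obtain ⟨x, y, z, m, hu, hm, hmM, hz, h0, h1, h2, hmin⟩ := min_eig (M := 5.7) (K := 101)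
    (dhi := 225.1) (elo := 24.9) (X0 := 0.012) (Y0 := 0.25) (x0 := -2.35) (y0 := 8.17) (ε := ε)
    ha ha' hb hb' hc hf hf' (by norm_num) (by norm_num) (by norm_num)
    (by rw [e1]; nlinarith) (by rw [e1]; nlinarith) (by norm_num) (by rw [e2]; nlinarith)
    (by rw [e2]; nlinarith) (by norm_num) (by norm_num) (by norm_num) (by norm_num) hε (by
      have e3 : (d * -2.35 + e * 8.17 + f * ε) ^ 2 = (d' * -2.35 + e' * 8.17 + f) ^ 2 := by
        have : (d' * -2.35 + e' * 8.17 + f) = ε * (d * -2.35 + e * 8.17 + f * ε) := by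
          rw [hdd, hee]; linear_combination (-f) * hε
        rw [this, mul_pow, hε, one_mul]
      have e4 : a * -2.35 + b * 8.17 + d * ε = a * -2.35 + b * 8.17 + d' := by rw [hdd]; ring
      have e5 : b * -2.35 + c * 8.17 + e * ε = b * -2.35 + c * 8.17 + e' := by rw [hee]; ring
      rw [e3, e4, e5]
      have q0 : (a * -2.35 + b * 8.17 + d') ^ 2 ≤ 176.89 := by
        have l1 : a * -2.35 + b * 8.17 + d' ≤ -13.1 := by linarith
        have l2 : -13.3 ≤ a * -2.35 + b * 8.17 + d' := by linarith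
        nlinarith
      have q1 : (b * -2.35 + c * 8.17 + e') ^ 2 ≤ 2106.81 := by
        have l1 : b * -2.35 + c * 8.17 + e' ≤ 45.9 := by linarith
        have l2 : 0 ≤ b * -2.35 + c * 8.17 + e' := by linarith
        nlinarith
      have q2 : (d' * -2.35 + e' * 8.17 + f) ^ 2 ≤ 32.49 := by
        have l1 : d' * -2.35 + e' * 8.17 + f ≤ 5.7 := by linarith
        have l2 : 0 ≤ d' * -2.35 + e' * 8.17 + f := by linarith
        nlinarith
      norm_num at q0 q1 q2 ⊢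
      linarith)
  exact ⟨x, y, z, m, hu, hm, by linarith, hz, h0, h1, h2, hmin⟩

/-- state 1 -/
lemma min_eig1 {a b c d e f ε : ℝ} (ha : 11.999 ≤ a) (ha' : a ≤ 12.002)
    (hb : -0.001 ≤ b) (hb' : b ≤ 0.001) (hc : 4.999 ≤ c) (hc' : c ≤ 5.002) (hf : -0.002 ≤ f)
    (hf' : f ≤ 0.002) (hε : ε ^ 2 = 1) (hd : 9.999 ≤ ε * d) (hd' : ε * d ≤ 10.002)
    (he : 0.999 ≤ ε * e) (he' : ε * e ≤ 1.002) :
    ∃ (x y z m : ℝ), x ^ 2 + y ^ 2 + z ^ 2 = 1 ∧ 4 < m ∧ m ≤ 6 ∧ 1 / 1000 ≤ z ^ 2 ∧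
      a * x + b * y + d * z = m * x ∧ b * x + c * y + e * z = m * y ∧
      d * x + e * y + f * z = m * z ∧
      ∀ v : Fin 3 → ℝ, m ^ 2 * nsq v ≤ nsq (Sy a b c d e f *ᵥ v) := by
  set d' := ε * d with hdd
  set e' := ε * e with hee
  have e1 : d ^ 2 = d' ^ 2 := by rw [hdd, mul_pow, hε, one_mul]
  have e2 : e ^ 2 = e' ^ 2 := by rw [hee, mul_pow, hε, one_mul]
  obtain ⟨x, y, z, m, hu, hm, hmM, hz, h0, h1, h2, hmin⟩ := min_eig (M := 5.1) (K := 87.3)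
    (dhi := 100.05) (elo := 0.998) (X0 := 0.0043) (Y0 := 0.92) (x0 := -1.44) (y0 := 19.44) (ε := ε)
    ha ha' hb hb' hc hf hf' (by norm_num) (by norm_num) (by norm_num)
    (by rw [e1]; nlinarith) (by rw [e1]; nlinarith) (by norm_num) (by rw [e2]; nlinarith)
    (by rw [e2]; nlinarith) (by norm_num) (by norm_num) (by norm_num) (by norm_num) hε (by
      have e3 : (d * -1.44 + e * 19.44 + f * ε) ^ 2 = (d' * -1.44 + e' * 19.44 + f) ^ 2 := by
        have : (d' * -1.44 + e' * 19.44 + f) = ε * (d * -1.44 + e * 19.44 + f * ε) := by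
          rw [hdd, hee]; linear_combination (-f) * hε
        rw [this, mul_pow, hε, one_mul]
      have e4 : a * -1.44 + b * 19.44 + d * ε = a * -1.44 + b * 19.44 + d' := by rw [hdd]; ring
      have e5 : b * -1.44 + c * 19.44 + e * ε = b * -1.44 + c * 19.44 + e' := by rw [hee]; ring
      rw [e3, e4, e5]
      have q0 : (a * -1.44 + b * 19.44 + d') ^ 2 ≤ 54.76 := by
        have l1 : a * -1.44 + b * 19.44 + d' ≤ -7.2 := by linarith
        have l2 : -7.4 ≤ a * -1.44 + b * 19.44 + d' := by linarith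
        nlinarith
      have q1 : (b * -1.44 + c * 19.44 + e') ^ 2 ≤ 9662.89 := by
        have l1 : b * -1.44 + c * 19.44 + e' ≤ 98.3 := by linarith
        have l2 : 0 ≤ b * -1.44 + c * 19.44 + e' := by linarith
        nlinarith
      have q2 : (d' * -1.44 + e' * 19.44 + f) ^ 2 ≤ 27.04 := by
        have l1 : d' * -1.44 + e' * 19.44 + f ≤ 5.2 := by linarith
        have l2 : 0 ≤ d' * -1.44 + e' * 19.44 + f := by linarith
        nlinarith
      norm_num at q0 q1 q2 ⊢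
      linarith)
  exact ⟨x, y, z, m, hu, hm, by linarith, hz, h0, h1, h2, hmin⟩

end P2GD
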