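import Mathlib
import Pool.Agent.Lib_helper66.P2GD.Proj

open Filter Topology Matrix
open scoped Matrix.Norms.Frobenius

namespace P2GD

/-- `qᵀ V q` for `q = (u, v, 1)` -/
def qf (u v : ℝ) (V : M3) : ℝ :=
  V 0 0 * u ^ 2 + V 0 1 * u * v + V 0 2 * u + V 1 0 * v * u + V 1 1 * v ^ 2 + V 1 2 * v +
    V 2 0 * u + V 2 1 * v + V 2 2

/-- the quadratic part of `det (X + V)` -/
def q2 (X V : M3) : ℝ := (X * V.adjugate).trace

lemma det_expand (a b c u v t : ℝ) (V : M3) :
    (XM a b c u v + t • V).det =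
      t * ((a * c - b ^ 2) * qf u v V) + t ^ 2 * q2 (XM a b c u v) V + t ^ 3 * V.det := by
  simp only [q2, Matrix.det_fin_three, Matrix.adjugate_fin_three, Matrix.trace_fin_three,
    Matrix.mul_apply, Fin.sum_univ_three, qf]
  simp [XM]
  ring

lemma continuous_entry (i j : Fin 3) : Continuous fun V : M3 => V i j :=
  continuous_id.matrix_elem i j

lemma continuous_qf (u v : ℝ) : Continuous (qf u v) := by
  unfold qf
  have := continuous_entry
  fun_prop

lemma continuous_q2 (X : M3) : Continuous (q2 X) := by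
  unfold q2
  exact (continuous_const.matrix_mul continuous_id.matrix_adjugate).matrix_trace

lemma continuous_det3 : Continuous fun V : M3 => V.det := continuous_id.matrix_det

lemma qf_eq_zero_of_mem {a b c u v : ℝ} (hD : a * c - b ^ 2 ≠ 0) {V : M3}
    (hV : V ∈ tangentCone (detVar 3 3 2) (XM a b c u v)) : qf u v V = 0 := by
  obtain ⟨t, W, ht, -, ht0, hW, hmem⟩ := hV
  have h1 : ∀ i, (a * c - b ^ 2) * qf u v (W i) + t i * q2 (XM a b c u v) (W i) +
      t i ^ 2 * (W i).det = 0 := by
    intro i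
    have h2 := mem_detVar_iff.1 (hmem i)
    rw [det_expand] at h2
    have h3 : t i ≠ 0 := (ht i).ne'
    have h4 : t i * ((a * c - b ^ 2) * qf u v (W i) + t i * q2 (XM a b c u v) (W i) +
      t i ^ 2 * (W i).det) = 0 := by linear_combination h2
    exact (mul_eq_zero.1 h4).resolve_left h3
  have h5 : Tendsto (fun i => (a * c - b ^ 2) * qf u v (W i) + t i * q2 (XM a b c u v) (W i) +
      t i ^ 2 * (W i).det) atTop
      (𝓝 ((a * c - b ^ 2) * qf u v V + 0 * q2 (XM a b c u v) V + 0 ^ 2 * V.det)) := by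
    refine ((((continuous_qf u v).tendsto V).comp hW).const_mul _).add
      (ht0.mul (((continuous_q2 _).tendsto V).comp hW)) |>.add ((ht0.pow 2).mul
      ((continuous_det3.tendsto V).comp hW))
  have h6 : Tendsto (fun i => (a * c - b ^ 2) * qf u v (W i) + t i * q2 (XM a b c u v) (W i) +
      t i ^ 2 * (W i).det) atTop (𝓝 0) := by
    simp only [h1]
    exact tendsto_const_nhds
  have h7 := tendsto_nhds_unique h5 h6
  have h8 : (a * c - b ^ 2) * qf u v V = 0 := by linear_combination h7
  exact (mul_eq_zero.1 h8).resolve_left hD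

/-- `qᵀ adj(A) q` -/
def psi (u v : ℝ) (A : M3) : ℝ := qf u v A.adjugate

lemma det_add_Q (A : M3) (u v y : ℝ) : (A + y • QM u v).det = A.det + y * psi u v A := by
  simp only [psi, qf, Matrix.det_fin_three, Matrix.adjugate_fin_three]
  simp [QM]
  ring

lemma psi_XM (a b c u v : ℝ) :
    psi u v (XM a b c u v) = (a * c - b ^ 2) * (u ^ 2 + v ^ 2 + 1) ^ 2 := by
  simp only [psi, qf, Matrix.adjugate_fin_three]
  simp [XM]
  ring

lemma mem_tangentCone {a b c u v : ℝ} (hD : a * c - b ^ 2 ≠ 0) {V : M3} (hV : qf u v V = 0) :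
    V ∈ tangentCone (detVar 3 3 2) (XM a b c u v) := by
  set X := XM a b c u v with hX
  -- psi along the line
  have hcont : Continuous fun t : ℝ => psi u v (X + t • V) := by
    unfold psi
    exact (continuous_qf u v).comp
      ((continuous_const.add (continuous_id.smul continuous_const)).matrix_adjugate)
  have h0 : psi u v (X + (0:ℝ) • V) ≠ 0 := by
    rw [zero_smul, add_zero, hX, psi_XM]
    have : 0 < u ^ 2 + v ^ 2 + 1 := by positivity
    exact mul_ne_zero hD (pow_ne_zero 2 this.ne')
  obtain ⟨τ, hτ, hne⟩ : ∃ τ > 0, ∀ t : ℝ, |t| < τ → psi u v (X + t • V) ≠ 0 := by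
    have h1 := hcont.continuousAt.eventually_ne h0
    obtain ⟨τ, hτ, h2⟩ := Metric.eventually_nhds_iff.1 h1
    exact ⟨τ, hτ, fun t ht => h2 (by simpa [Real.dist_eq] using ht)⟩
  -- the correction divided by t
  set y : ℝ → ℝ := fun t => -((t * q2 X V + t ^ 2 * V.det) / psi u v (X + t • V)) with hy
  have hy0 : Tendsto y (𝓝 0) (𝓝 0) := by
    have h1 : ContinuousAt (fun t : ℝ => (t * q2 X V + t ^ 2 * V.det) / psi u v (X + t • V)) 0 := by
      refine ContinuousAt.div ?_ hcont.continuousAt h0
      fun_prop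
    have h2 := h1.neg
    have h3 : -((0 * q2 X V + 0 ^ 2 * V.det) / psi u v (X + (0:ℝ) • V)) = 0 := by simp
    have h4 : Tendsto y (𝓝 0) (𝓝 (-((0 * q2 X V + 0 ^ 2 * V.det) / psi u v (X + (0:ℝ) • V)))) := h2
    rwa [h3] at h4
  set s : ℕ → ℝ := fun i => τ / 2 / (i + 1) with hs
  have hs0 : Tendsto s atTop (𝓝 0) := by
    have h1 := (tendsto_one_div_add_atTop_nhds_zero_nat (𝕜 := ℝ)).const_mul (τ / 2)
    rw [mul_zero] at h1
    refine h1.congr fun i => ?_
    simp only [hs]
    ring
  refine ⟨s, fun i => V + y (s i) • QM u v, ?_, ?_, hs0, ?_, ?_⟩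
  · intro i; simp only [hs]; positivity
  · intro i j hij
    simp only [hs]
    apply div_le_div_of_nonneg_left (by positivity) (by positivity)
    have : (i:ℝ) ≤ j := by exact_mod_cast hij
    linarith
  · have h1 : Tendsto (fun i => V + y (s i) • QM u v) atTop (𝓝 (V + (0:ℝ) • QM u v)) :=
      tendsto_const_nhds.add ((hy0.comp hs0).smul tendsto_const_nhds)
    simpa using h1
  · intro i
    rw [mem_detVar_iff]
    have hsi : 0 < s i := by simp only [hs]; positivity
    have hlt : |s i| < τ := by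
      rw [abs_of_pos hsi]
      simp only [hs]
      have h1 : τ / 2 / ((i:ℝ) + 1) ≤ τ / 2 := by
        apply div_le_self (by positivity)
        have : (0:ℝ) ≤ i := Nat.cast_nonneg i
        linarith
      linarith
    have h1 := hne _ hlt
    have h2 : X + s i • (V + y (s i) • QM u v) = (X + s i • V) + (s i * y (s i)) • QM u v := by
      rw [smul_add, smul_smul, add_assoc]
    rw [h2, det_add_Q, hX, det_expand, hV, ← hX]
    simp only [hy]
    field_simp
    ring

end P2GD
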