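import Mathlib
import Pool.Agent.Lib_helper66.P2GD.Tangent

open Filter Topology Matrix
open scoped Matrix.Norms.Frobenius

namespace P2GD

lemma norm_add_Q (A : M3) (u v z : ℝ) :
    ‖A + z • QM u v‖ ^ 2 = ‖A‖ ^ 2 + 2 * z * qf u v A + z ^ 2 * (u ^ 2 + v ^ 2 + 1) ^ 2 := by
  rw [norm_sq3, norm_sq3]
  simp [QM, qf]
  ring

lemma qf_sub (u v : ℝ) (A B : M3) : qf u v (A - B) = qf u v A - qf u v B := by
  simp [qf]; ring

lemma qf_neg (u v : ℝ) (A : M3) : qf u v (-A) = -qf u v A := by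
  simp [qf]; ring

lemma qf_smul_Q (u v z : ℝ) : qf u v (z • QM u v) = z * (u ^ 2 + v ^ 2 + 1) ^ 2 := by
  simp [qf, QM]; ring

lemma norm_smul_Q_sq (u v z : ℝ) : ‖z • QM u v‖ ^ 2 = z ^ 2 * (u ^ 2 + v ^ 2 + 1) ^ 2 := by
  rw [norm_smul, mul_pow, QM_norm_sq, Real.norm_eq_abs, sq_abs]

/-- The projection of `-S` onto the tangent cone at `XM`. -/
theorem proj_tangentCone {a b c u v : ℝ} (hD : a * c - b ^ 2 ≠ 0) (S : M3) (z : ℝ)
    (hz : qf u v S = z * (u ^ 2 + v ^ 2 + 1) ^ 2) :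
    proj (tangentCone (detVar 3 3 2) (XM a b c u v)) (-S) = {z • QM u v - S} := by
  have hG : z • QM u v - S ∈ tangentCone (detVar 3 3 2) (XM a b c u v) := by
    apply mem_tangentCone hD
    rw [qf_sub, qf_smul_Q, hz, sub_self]
  have hlow : ∀ V ∈ tangentCone (detVar 3 3 2) (XM a b c u v),
      ‖-S - V + z • QM u v‖ ^ 2 = ‖-S - V‖ ^ 2 - z ^ 2 * (u ^ 2 + v ^ 2 + 1) ^ 2 := by
    intro V hV
    have h1 := qf_eq_zero_of_mem hD hV
    rw [norm_add_Q, qf_sub, qf_neg, h1, hz]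
    ring
  have hdist : ‖-S - (z • QM u v - S)‖ ^ 2 = z ^ 2 * (u ^ 2 + v ^ 2 + 1) ^ 2 := by
    have : -S - (z • QM u v - S) = -(z • QM u v) := by abel
    rw [this, norm_neg, norm_smul_Q_sq]
  apply Set.eq_singleton_iff_unique_mem.2
  constructor
  · refine ⟨hG, fun V hV => ?_⟩
    apply le_of_sq_le_sq _ (norm_nonneg _)
    rw [hdist]
    have h1 := hlow V hV
    nlinarith [sq_nonneg ‖-S - V + z • QM u v‖]
  · rintro G ⟨hGT, hGmin⟩
    have h1 := hlow G hGT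
    have h2 := hGmin _ hG
    have h3 : ‖-S - G‖ ^ 2 ≤ z ^ 2 * (u ^ 2 + v ^ 2 + 1) ^ 2 := by
      rw [← hdist]
      exact pow_le_pow_left₀ (norm_nonneg _) h2 2
    have h4 : ‖-S - G + z • QM u v‖ ^ 2 ≤ 0 := by rw [h1]; linarith
    have h5 : ‖-S - G + z • QM u v‖ = 0 := by
      have := sq_nonneg ‖-S - G + z • QM u v‖
      exact pow_eq_zero_iff (two_ne_zero) |>.1 (le_antisymm h4 this)
    have h6 : -S - G + z • QM u v = 0 := norm_eq_zero.1 h5
    have h7 : G = z • QM u v - S := by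
      have : G = z • QM u v - S - (-S - G + z • QM u v) := by abel
      rw [this, h6, sub_zero]
    exact h7

theorem statMeas_eq {a b c u v : ℝ} (hD : a * c - b ^ 2 ≠ 0) (S : M3) (z : ℝ)
    (hz : qf u v S = z * (u ^ 2 + v ^ 2 + 1) ^ 2) (f : M3 → ℝ)
    (hf : grad f (XM a b c u v) = S) :
    statMeas 2 f (XM a b c u v) = ‖z • QM u v - S‖ := by
  unfold statMeas
  rw [hf, proj_tangentCone hD S z hz, Set.image_singleton, csInf_singleton]

end P2GD
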