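import Mathlib
import Pool.Agent.Lib_helper66.P2GD.Reject
import Pool.Agent.Lib_helper66.P2GD.Stat
import Pool.Agent.Lib_helper66.P2GD.CycleBounds

open Filter Topology Matrix
open scoped Matrix.Norms.Frobenius

namespace P2GD

/-- Producing an output of the P²GD map with `αlo = β`, `αhi = 1`. -/
lemma isOutput_of {f : M3 → ℝ} {X G Y : M3} {αs β c : ℝ} (hβ : 0 < β) (hβ1 : β < 1)
    (hα : 0 < αs) (hα1 : αs ≤ 1)
    (hG : G ∈ proj (tangentCone (detVar 3 3 2) X) (-grad f X)) (hs : statMeas 2 f X = ‖G‖)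
    (hY : Y ∈ proj (detVar 3 3 2) (X + αs • G)) (hacc : f Y ≤ f X - c * αs * ‖G‖ ^ 2)
    (hrej : ∀ α, αs / β ≤ α → ∃ Z ∈ proj (detVar 3 3 2) (X + α • G),
      f X - c * α * ‖G‖ ^ 2 < f Z) :
    IsOutput 2 f β 1 β c X Y := by
  obtain ⟨J, hJ1, hJ2⟩ := exists_nat_pow_near_of_lt_one hα hα1 hβ hβ1
  have hβJ : 0 < β ^ J := pow_pos hβ J
  refine ⟨G, hG, αs / β ^ J, ⟨?_, ?_⟩, J, ?_⟩
  · rw [le_div_iff₀ hβJ]
    have : β * β ^ J = β ^ (J + 1) := by ring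
    linarith
  · rw [div_le_one hβJ]
    exact hJ2
  have hend : αs / β ^ J * β ^ J = αs := by field_simp
  have hrej' : ∀ j, j < J → ∃ Z ∈ proj (detVar 3 3 2) (X + (αs / β ^ J * β ^ j) • G),
      f X - c * (αs / β ^ J * β ^ j) * ‖G‖ ^ 2 < f Z := by
    intro j hj
    apply hrej
    have h1 : αs / β ^ J * β ^ (J - 1) = αs / β := by
      obtain ⟨k, rfl⟩ : ∃ k, J = k + 1 := ⟨J - 1, by omega⟩
      rw [Nat.add_sub_cancel, pow_succ]
      field_simp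
    rw [← h1]
    apply mul_le_mul_of_nonneg_left _ (by positivity)
    exact pow_le_pow_of_le_one hβ.le hβ1.le (by omega)
  choose! Z hZ1 hZ2 using hrej'
  refine ⟨fun j => if j < J then Z j else Y, ?_, ?_, ?_, ?_⟩
  · intro j hj
    by_cases h : j < J
    · simp only [h, if_true]
      exact hZ1 j h
    · simp only [h, if_false]
      obtain rfl : j = J := by omega
      rw [hend]
      exact hY
  · intro j hj
    simp only [hj, if_true, hs]
    exact hZ2 j hj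
  · simp only [lt_irrefl, if_false, hs, hend]
    exact hacc
  · simp

lemma ip_G {S : M3} {u v z : ℝ} (hz : qf u v S = z * (u ^ 2 + v ^ 2 + 1) ^ 2) :
    ip S (z • QM u v - S) = -‖z • QM u v - S‖ ^ 2 := by
  rw [norm_sq3, ip_eq]
  simp only [qf] at hz
  simp [QM]
  linear_combination (-z) * hz

open P2GD.Cycle (Data)

variable (d : Data)

/-- The matrix of the linear function. -/
def SM : M3 := Sy d.a11 d.a12 d.a22 0 0 d.N

/-- The even states. -/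
noncomputable def X0 (σ ε : ℝ) : M3 :=
  XM (σ * d.s11) (σ * d.s12) (σ * d.s22) (ε * (-15 / 10 ^ 6)) (ε * (-5 / 10 ^ 6))

/-- The odd states. -/
noncomputable def X1 (σ ε : ℝ) : M3 :=
  XM (σ * d.t11) (σ * d.t12) (σ * d.t22) (ε * (-10 / 10 ^ 6)) (ε * (-1 / 10 ^ 6))

noncomputable def Q0 (ε : ℝ) : M3 := QM (ε * (-15 / 10 ^ 6)) (ε * (-5 / 10 ^ 6))

noncomputable def Q1 (ε : ℝ) : M3 := QM (ε * (-10 / 10 ^ 6)) (ε * (-1 / 10 ^ 6))

noncomputable def G0 (ε : ℝ) : M3 := d.Ga • Q0 ε - SM d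

noncomputable def G1 (ε : ℝ) : M3 := d.ze • Q1 ε - SM d

lemma qf_S0 {ε : ℝ} (hε : ε ^ 2 = 1) : qf (ε * (-15 / 10 ^ 6)) (ε * (-5 / 10 ^ 6)) (SM d) =
    d.Ga * ((ε * (-15 / 10 ^ 6)) ^ 2 + (ε * (-5 / 10 ^ 6)) ^ 2 + 1) ^ 2 := by
  have e1 : (ε * (-15 / 10 ^ 6)) ^ 2 = 225 / 10 ^ 12 := by rw [mul_pow, hε]; norm_num
  have e2 : (ε * (-5 / 10 ^ 6)) ^ 2 = 25 / 10 ^ 12 := by rw [mul_pow, hε]; norm_num
  have e3 : (ε * (-15 / 10 ^ 6)) * (ε * (-5 / 10 ^ 6)) = 75 / 10 ^ 12 := by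
    linear_combination (75 / 10 ^ 12) * hε
  have h := d.Q0
  simp only [qf, SM, Sy, Matrix.of_apply, Matrix.cons_val', Matrix.cons_val_zero,
    Matrix.cons_val_one, Matrix.cons_val, Matrix.cons_val_fin_one, e1, e2]
  linear_combination h + 2 * d.a12 * e3

lemma qf_S1 {ε : ℝ} (hε : ε ^ 2 = 1) : qf (ε * (-10 / 10 ^ 6)) (ε * (-1 / 10 ^ 6)) (SM d) =
    d.ze * ((ε * (-10 / 10 ^ 6)) ^ 2 + (ε * (-1 / 10 ^ 6)) ^ 2 + 1) ^ 2 := by
  have e1 : (ε * (-10 / 10 ^ 6)) ^ 2 = 100 / 10 ^ 12 := by rw [mul_pow, hε]; norm_num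
  have e2 : (ε * (-1 / 10 ^ 6)) ^ 2 = 1 / 10 ^ 12 := by rw [mul_pow, hε]; norm_num
  have e3 : (ε * (-10 / 10 ^ 6)) * (ε * (-1 / 10 ^ 6)) = 10 / 10 ^ 12 := by
    linear_combination (10 / 10 ^ 12) * hε
  have h := d.Q1
  simp only [qf, SM, Sy, Matrix.of_apply, Matrix.cons_val', Matrix.cons_val_zero,
    Matrix.cons_val_one, Matrix.cons_val, Matrix.cons_val_fin_one, e1, e2]
  linear_combination h + 2 * d.a12 * e3

lemma step0 {σ ε : ℝ} (hε : ε ^ 2 = 1) :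
    X0 d σ ε + (σ * d.al0) • G0 d ε = X1 d σ ε - (σ * d.D) • Q1 ε := by
  have E11 := d.E11
  have E12 := d.E12
  have E22 := d.E22
  have E13 := d.E13
  have E23 := d.E23
  have E33 := d.E33
  ext i j
  fin_cases i <;> fin_cases j <;>
    simp only [X0, X1, G0, SM, Q0, Q1, XM, QM, Sy, Matrix.add_apply, Matrix.sub_apply,
      Matrix.smul_apply, smul_eq_mul, Matrix.of_apply, Matrix.cons_val', Matrix.cons_val_zero,
      Matrix.cons_val_one, Matrix.cons_val, Matrix.cons_val_fin_one, Fin.zero_eta, Fin.mk_one,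
      Fin.reduceFinMk]
  · linear_combination σ * E11 + σ * (d.al0 * d.Ga * 225 / 10 ^ 12 + d.D * 100 / 10 ^ 12) * hε
  · linear_combination σ * E12 + σ * (d.al0 * d.Ga * 75 / 10 ^ 12 + d.D * 10 / 10 ^ 12) * hε
  · linear_combination σ * ε * E13
  · linear_combination σ * E12 + σ * (d.al0 * d.Ga * 75 / 10 ^ 12 + d.D * 10 / 10 ^ 12) * hε
  · linear_combination σ * E22 + σ * (d.al0 * d.Ga * 25 / 10 ^ 12 + d.D / 10 ^ 12) * hε
  · linear_combination σ * ε * E23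
  · linear_combination σ * ε * E13
  · linear_combination σ * ε * E23
  · linear_combination σ * E33 + σ * ((225 * d.s11 + 150 * d.s12 + 25 * d.s22) / 10 ^ 12 -
      (100 * d.t11 + 20 * d.t12 + d.t22) / 10 ^ 12) * hε

lemma step1 {σ ε : ℝ} (hε : ε ^ 2 = 1) :
    X1 d σ ε + (σ * d.al1) • G1 d ε = X0 d (d.lam * σ) (-ε) - (σ * d.D2) • Q0 (-ε) := by
  have E11 := d.F11
  have E12 := d.F12
  have E22 := d.F22
  have E13 := d.F13
  have E23 := d.F23
  have E33 := d.F33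
  ext i j
  fin_cases i <;> fin_cases j <;>
    simp only [X0, X1, G1, SM, Q0, Q1, XM, QM, Sy, Matrix.add_apply, Matrix.sub_apply,
      Matrix.smul_apply, smul_eq_mul, Matrix.of_apply, Matrix.cons_val', Matrix.cons_val_zero,
      Matrix.cons_val_one, Matrix.cons_val, Matrix.cons_val_fin_one, Fin.zero_eta, Fin.mk_one,
      Fin.reduceFinMk]
  · linear_combination σ * E11 + σ * (d.al1 * d.ze * 100 / 10 ^ 12 + d.D2 * 225 / 10 ^ 12) * hε
  · linear_combination σ * E12 + σ * (d.al1 * d.ze * 10 / 10 ^ 12 + d.D2 * 75 / 10 ^ 12) * hε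
  · linear_combination σ * ε * E13
  · linear_combination σ * E12 + σ * (d.al1 * d.ze * 10 / 10 ^ 12 + d.D2 * 75 / 10 ^ 12) * hε
  · linear_combination σ * E22 + σ * (d.al1 * d.ze / 10 ^ 12 + d.D2 * 25 / 10 ^ 12) * hε
  · linear_combination σ * ε * E23
  · linear_combination σ * ε * E13
  · linear_combination σ * ε * E23
  · linear_combination σ * E33 + σ * ((100 * d.t11 + 20 * d.t12 + d.t22) / 10 ^ 12 -
      d.lam * (225 * d.s11 + 150 * d.s12 + 25 * d.s22) / 10 ^ 12) * hε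

end P2GD
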