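import Mathlib
import Pool.Agent.Lib_helper66.P2GD.Step

open Filter Topology Matrix
open scoped Matrix.Norms.Frobenius
open P2GD.Cycle (Data)

namespace P2GD

variable (d : Data)

lemma sq_bd {x l u : ℝ} (hl : 0 ≤ l) (h1 : l ≤ x) (h2 : x ≤ u) : l ^ 2 ≤ x ^ 2 ∧ x ^ 2 ≤ u ^ 2 :=
  ⟨pow_le_pow_left₀ hl h1 2, pow_le_pow_left₀ (hl.trans h1) h2 2⟩

lemma sq_bd' {x : ℝ} (h1 : -0.001 ≤ x) (h2 : x ≤ 0.001) : 0 ≤ x ^ 2 ∧ x ^ 2 ≤ 0.001 :=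
  ⟨sq_nonneg x, by nlinarith⟩

lemma normG0 {ε : ℝ} (hε : ε ^ 2 = 1) : 669 ≤ ‖G0 d ε‖ ^ 2 ∧ ‖G0 d ε‖ ^ 2 ≤ 670 := by
  have ba11 := d.ba11
  have ba12 := d.ba12
  have ba22 := d.ba22
  have bN := d.bN
  have bGa := d.bGa
  have hQ := d.Q0
  have e : ‖G0 d ε‖ ^ 2 = (d.a11 - d.Ga * (225 / 10 ^ 12)) ^ 2 +
      2 * (d.a12 - d.Ga * (75 / 10 ^ 12)) ^ 2 + (d.a22 - d.Ga * (25 / 10 ^ 12)) ^ 2 +
      2 * (d.Ga * (15 / 10 ^ 6)) ^ 2 + 2 * (d.Ga * (5 / 10 ^ 6)) ^ 2 + (d.Ga - d.N) ^ 2 := by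
    rw [norm_sq3]
    simp only [G0, SM, Q0, QM, Sy, Matrix.sub_apply,
      Matrix.smul_apply, smul_eq_mul, Matrix.of_apply, Matrix.cons_val', Matrix.cons_val_zero,
      Matrix.cons_val_one, Matrix.cons_val, Matrix.cons_val_fin_one]
    have e1 : ε * (-15 / 10 ^ 6) * (ε * (-15 / 10 ^ 6)) = 225 / 10 ^ 12 := by
      linear_combination (225 / 10 ^ 12) * hε
    have e2 : ε * (-5 / 10 ^ 6) * (ε * (-5 / 10 ^ 6)) = 25 / 10 ^ 12 := by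
      linear_combination (25 / 10 ^ 12) * hε
    have e3 : ε * (-15 / 10 ^ 6) * (ε * (-5 / 10 ^ 6)) = 75 / 10 ^ 12 := by
      linear_combination (75 / 10 ^ 12) * hε
    rw [e1, e2, e3]
    linear_combination (2 * (d.Ga * (15 / 10 ^ 6)) ^ 2 + 2 * (d.Ga * (5 / 10 ^ 6)) ^ 2) * hε
  rw [e]
  have hf : -0.001 ≤ d.Ga - d.N ∧ d.Ga - d.N ≤ 0.001 := by
    have h1 : d.Ga - d.N = (225 * d.a11 + 150 * d.a12 + 25 * d.a22) / 10 ^ 12 -
      d.Ga * (500 / 10 ^ 12 + 62500 / 10 ^ 24) := by linear_combination -hQ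
    rw [h1]
    constructor <;> linarith
  have k1 : 12 ≤ d.a11 - d.Ga * (225 / 10 ^ 12) := by linarith
  have k1' : d.a11 - d.Ga * (225 / 10 ^ 12) ≤ 12.001 := by linarith
  have k2 : -0.001 ≤ d.a12 - d.Ga * (75 / 10 ^ 12) := by linarith
  have k2' : d.a12 - d.Ga * (75 / 10 ^ 12) ≤ 0.001 := by linarith
  have k3 : 5 ≤ d.a22 - d.Ga * (25 / 10 ^ 12) := by linarith
  have k3' : d.a22 - d.Ga * (25 / 10 ^ 12) ≤ 5.001 := by linarith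
  have k4 : 15 ≤ d.Ga * (15 / 10 ^ 6) := by linarith
  have k4' : d.Ga * (15 / 10 ^ 6) ≤ 15.001 := by linarith
  have k5 : 5 ≤ d.Ga * (5 / 10 ^ 6) := by linarith
  have k5' : d.Ga * (5 / 10 ^ 6) ≤ 5.001 := by linarith
  have q1 := sq_bd (by norm_num) k1 k1'
  have q2 := sq_bd' k2 k2'
  have q3 := sq_bd (by norm_num) k3 k3'
  have q4 := sq_bd (by norm_num) k4 k4'
  have q5 := sq_bd (by norm_num) k5 k5'
  have q6 := sq_bd' hf.1 hf.2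
  norm_num1 at q1 q2 q3 q4 q5 q6 ⊢
  constructor <;> linarith [q1.1, q1.2, q2.1, q2.2, q3.1, q3.2, q4.1, q4.2, q5.1, q5.2, q6.1, q6.2]

lemma normG1 {ε : ℝ} (hε : ε ^ 2 = 1) : 371 ≤ ‖G1 d ε‖ ^ 2 ∧ ‖G1 d ε‖ ^ 2 ≤ 372 := by
  have ba11 := d.ba11
  have ba12 := d.ba12
  have ba22 := d.ba22
  have bN := d.bN
  have bze := d.bze
  have hQ := d.Q1
  have e : ‖G1 d ε‖ ^ 2 = (d.a11 - d.ze * (100 / 10 ^ 12)) ^ 2 +
      2 * (d.a12 - d.ze * (10 / 10 ^ 12)) ^ 2 + (d.a22 - d.ze * (1 / 10 ^ 12)) ^ 2 +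
      2 * (d.ze * (10 / 10 ^ 6)) ^ 2 + 2 * (d.ze * (1 / 10 ^ 6)) ^ 2 + (d.ze - d.N) ^ 2 := by
    rw [norm_sq3]
    simp only [G1, SM, Q1, QM, Sy, Matrix.sub_apply,
      Matrix.smul_apply, smul_eq_mul, Matrix.of_apply, Matrix.cons_val', Matrix.cons_val_zero,
      Matrix.cons_val_one, Matrix.cons_val, Matrix.cons_val_fin_one]
    have e1 : ε * (-10 / 10 ^ 6) * (ε * (-10 / 10 ^ 6)) = 100 / 10 ^ 12 := by
      linear_combination (100 / 10 ^ 12) * hε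
    have e2 : ε * (-1 / 10 ^ 6) * (ε * (-1 / 10 ^ 6)) = 1 / 10 ^ 12 := by
      linear_combination (1 / 10 ^ 12) * hε
    have e3 : ε * (-10 / 10 ^ 6) * (ε * (-1 / 10 ^ 6)) = 10 / 10 ^ 12 := by
      linear_combination (10 / 10 ^ 12) * hε
    rw [e1, e2, e3]
    linear_combination (2 * (d.ze * (10 / 10 ^ 6)) ^ 2 + 2 * (d.ze * (1 / 10 ^ 6)) ^ 2) * hε
  rw [e]
  have hf : -0.001 ≤ d.ze - d.N ∧ d.ze - d.N ≤ 0.001 := by
    have h1 : d.ze - d.N = (100 * d.a11 + 20 * d.a12 + d.a22) / 10 ^ 12 -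
      d.ze * (202 / 10 ^ 12 + 10201 / 10 ^ 24) := by linear_combination -hQ
    rw [h1]
    constructor <;> linarith
  have k1 : 12 ≤ d.a11 - d.ze * (100 / 10 ^ 12) := by linarith
  have k1' : d.a11 - d.ze * (100 / 10 ^ 12) ≤ 12.001 := by linarith
  have k2 : -0.001 ≤ d.a12 - d.ze * (10 / 10 ^ 12) := by linarith
  have k2' : d.a12 - d.ze * (10 / 10 ^ 12) ≤ 0.001 := by linarith
  have k3 : 5 ≤ d.a22 - d.ze * (1 / 10 ^ 12) := by linarith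
  have k3' : d.a22 - d.ze * (1 / 10 ^ 12) ≤ 5.001 := by linarith
  have k4 : 10 ≤ d.ze * (10 / 10 ^ 6) := by linarith
  have k4' : d.ze * (10 / 10 ^ 6) ≤ 10.001 := by linarith
  have k5 : 1 ≤ d.ze * (1 / 10 ^ 6) := by linarith
  have k5' : d.ze * (1 / 10 ^ 6) ≤ 1.001 := by linarith
  have q1 := sq_bd (by norm_num) k1 k1'
  have q2 := sq_bd' k2 k2'
  have q3 := sq_bd (by norm_num) k3 k3'
  have q4 := sq_bd (by norm_num) k4 k4'
  have q5 := sq_bd (by norm_num) k5 k5'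
  have q6 := sq_bd' hf.1 hf.2
  norm_num1 at q1 q2 q3 q4 q5 q6 ⊢
  constructor <;> linarith [q1.1, q1.2, q2.1, q2.2, q3.1, q3.2, q4.1, q4.2, q5.1, q5.2, q6.1, q6.2]

/-- `eᵀ S e ≥ 1000` once `e₃² ≥ 1/1000`. -/
lemma form_lower {x y z : ℝ} (hz : 1 / 1000 ≤ z ^ 2) :
    1000 ≤ d.a11 * x ^ 2 + 2 * d.a12 * x * y + d.a22 * y ^ 2 + d.N * z ^ 2 := by
  have ba11 := d.ba11
  have ba12 := d.ba12
  have ba22 := d.ba22
  have bN := d.bN
  have h1 : 2 * d.a12 * x * y ≥ -(d.a12 * (x ^ 2 + y ^ 2)) := by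
    nlinarith [mul_nonneg ba12.1.le (sq_nonneg (x + y))]
  have h2 : d.a12 * (x ^ 2 + y ^ 2) ≤ 1 * (x ^ 2 + y ^ 2) :=
    mul_le_mul_of_nonneg_right (by linarith) (by positivity)
  have h3 : 1 * x ^ 2 ≤ d.a11 * x ^ 2 := mul_le_mul_of_nonneg_right (by linarith) (sq_nonneg x)
  have h4 : 1 * y ^ 2 ≤ d.a22 * y ^ 2 := mul_le_mul_of_nonneg_right (by linarith) (sq_nonneg y)
  have h5 : 1000023 * (1 / 1000) ≤ d.N * z ^ 2 :=
    mul_le_mul bN.1.le hz (by norm_num) (by linarith)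
  linarith

lemma rej_common {a b c dd e f x y z m α : ℝ} {X G : M3} (hα : 0 < α)
    (hG : ip (SM d) G = -‖G‖ ^ 2) (hW : X + α • G = -(α • Sy a b c dd e f))
    (hu : x ^ 2 + y ^ 2 + z ^ 2 = 1) (hm : 4 < m) (hz : 1 / 1000 ≤ z ^ 2)
    (h0 : a * x + b * y + dd * z = m * x)
    (h1 : b * x + c * y + e * z = m * y) (h2 : dd * x + e * y + f * z = m * z)
    (hmin : ∀ v : Fin 3 → ℝ, m ^ 2 * nsq v ≤ nsq (Sy a b c dd e f *ᵥ v)) :
    ∃ Z ∈ proj (detVar 3 3 2) (X + α • G),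
      ip (SM d) X - α * ‖G‖ ^ 2 + 4000 * α ≤ ip (SM d) Z := by
  refine ⟨-(α • Sy a b c dd e f) + (α * m) • EE x y z, ?_, ?_⟩
  · rw [hW]
    exact trial_mem_proj hu h0 h1 h2 hmin
  · rw [← hW, ip_add, ip_add, ip_smul, ip_smul, hG, SM, ip_EE]
    have h3 := form_lower d (x := x) (y := y) hz
    have h4 : α * m * 1000 ≤ α * m * (d.a11 * x ^ 2 + 2 * d.a12 * x * y + d.a22 * y ^ 2 +
        d.N * z ^ 2) := mul_le_mul_of_nonneg_left h3 (by positivity)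
    have h5 : α * 4 ≤ α * m := mul_le_mul_of_nonneg_left hm.le hα.le
    linarith

lemma rej0 {σ ε α : ℝ} (hσ : 0 < σ) (hε : ε ^ 2 = 1) (hα : σ * 10 ^ 8 ≤ α) :
    ∃ Z ∈ proj (detVar 3 3 2) (X0 d σ ε + α • G0 d ε),
      ip (SM d) (X0 d σ ε) - α * ‖G0 d ε‖ ^ 2 + 4000 * α ≤ ip (SM d) Z := by
  have ba11 := d.ba11
  have ba12 := d.ba12
  have ba22 := d.ba22
  have bN := d.bN
  have bGa := d.bGa
  have bs11 := d.bs11
  have bs12 := d.bs12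
  have bs22 := d.bs22
  have hQ := d.Q0
  have hα0 : 0 < α := by nlinarith
  obtain ⟨ρ, hρdef⟩ : ∃ ρ, ρ = σ / α := ⟨_, rfl⟩
  have hρ : 0 < ρ := by rw [hρdef]; positivity
  have hρ1 : ρ ≤ 1 / 10 ^ 8 := by
    rw [hρdef, div_le_iff₀ hα0]
    linarith
  have hσρ : σ = ρ * α := by rw [hρdef]; field_simp
  have r11 : ρ * d.s11 ≤ 1 / 10 ^ 8 * 13 := mul_le_mul hρ1 (by linarith) (by linarith) (by norm_num)
  have r22 : ρ * d.s22 ≤ 1 / 10 ^ 8 * 13 := mul_le_mul hρ1 (by linarith) (by linarith) (by norm_num)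
  have r11' : 0 ≤ ρ * d.s11 := by apply mul_nonneg hρ.le; linarith
  have r22' : 0 ≤ ρ * d.s22 := by apply mul_nonneg hρ.le; linarith
  have r12 : ρ * (d.s12 + 1) ≤ 1 / 10 ^ 8 * 2 :=
    mul_le_mul hρ1 (by linarith) (by linarith) (by norm_num)
  have r12' : 0 ≤ ρ * (d.s12 + 1) := by apply mul_nonneg hρ.le; linarith
  have hf : 0 ≤ d.N - d.Ga ∧ d.N - d.Ga ≤ 0.001 := by
    have h1 : d.Ga - d.N = (225 * d.a11 + 150 * d.a12 + 25 * d.a22) / 10 ^ 12 -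
      d.Ga * (500 / 10 ^ 12 + 62500 / 10 ^ 24) := by linear_combination -hQ
    constructor <;> linarith
  have hd : ε * (ε * (15 * d.Ga / 10 ^ 6 - (15 * (ρ * d.s11) + 5 * (ρ * d.s12)) / 10 ^ 6)) =
      15 * d.Ga / 10 ^ 6 - (15 * (ρ * d.s11) + 5 * (ρ * d.s12)) / 10 ^ 6 := by
    linear_combination (15 * d.Ga / 10 ^ 6 - (15 * (ρ * d.s11) + 5 * (ρ * d.s12)) / 10 ^ 6) * hε
  have he : ε * (ε * (5 * d.Ga / 10 ^ 6 - (15 * (ρ * d.s12) + 5 * (ρ * d.s22)) / 10 ^ 6)) =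
      5 * d.Ga / 10 ^ 6 - (15 * (ρ * d.s12) + 5 * (ρ * d.s22)) / 10 ^ 6 := by
    linear_combination (5 * d.Ga / 10 ^ 6 - (15 * (ρ * d.s12) + 5 * (ρ * d.s22)) / 10 ^ 6) * hε
  obtain ⟨x, y, z, m, hu, hm, -, hz, h0, h1, h2, hmin⟩ := min_eig0
    (a := d.a11 - d.Ga * (225 / 10 ^ 12) - ρ * d.s11)
    (b := d.a12 - d.Ga * (75 / 10 ^ 12) - ρ * d.s12)
    (c := d.a22 - d.Ga * (25 / 10 ^ 12) - ρ * d.s22)
    (d := ε * (15 * d.Ga / 10 ^ 6 - (15 * (ρ * d.s11) + 5 * (ρ * d.s12)) / 10 ^ 6))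
    (e := ε * (5 * d.Ga / 10 ^ 6 - (15 * (ρ * d.s12) + 5 * (ρ * d.s22)) / 10 ^ 6))
    (f := d.N - d.Ga - (225 * (ρ * d.s11) + 150 * (ρ * d.s12) + 25 * (ρ * d.s22)) / 10 ^ 12)
    (ε := ε) (by linarith) (by linarith) (by linarith) (by linarith) (by linarith) (by linarith)
    (by linarith) (by linarith) hε (by rw [hd]; linarith) (by rw [hd]; linarith)
    (by rw [he]; linarith) (by rw [he]; linarith)
  refine rej_common d hα0 (by rw [G0]; exact ip_G (qf_S0 d hε)) ?_ hu hm hz h0 h1 h2 hmin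
  ext i j
  fin_cases i <;> fin_cases j <;>
    simp only [X0, G0, SM, Q0, XM, QM, Sy, Matrix.add_apply, Matrix.sub_apply,
      Matrix.smul_apply, smul_eq_mul, Matrix.of_apply, Matrix.cons_val', Matrix.cons_val_zero,
      Matrix.cons_val_one, Matrix.cons_val, Matrix.cons_val_fin_one, Fin.zero_eta, Fin.mk_one,
      Fin.reduceFinMk, Matrix.neg_apply]
  · linear_combination d.s11 * hσρ + (α * d.Ga * 225 / 10 ^ 12) * hε
  · linear_combination d.s12 * hσρ + (α * d.Ga * 75 / 10 ^ 12) * hε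
  · linear_combination (ε * (15 * d.s11 + 5 * d.s12) / 10 ^ 6) * hσρ
  · linear_combination d.s12 * hσρ + (α * d.Ga * 75 / 10 ^ 12) * hε
  · linear_combination d.s22 * hσρ + (α * d.Ga * 25 / 10 ^ 12) * hε
  · linear_combination (ε * (15 * d.s12 + 5 * d.s22) / 10 ^ 6) * hσρ
  · linear_combination (ε * (15 * d.s11 + 5 * d.s12) / 10 ^ 6) * hσρ
  · linear_combination (ε * (15 * d.s12 + 5 * d.s22) / 10 ^ 6) * hσρ
  · linear_combination ((225 * d.s11 + 150 * d.s12 + 25 * d.s22) / 10 ^ 12) * hσρ +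
      (σ * (225 * d.s11 + 150 * d.s12 + 25 * d.s22) / 10 ^ 12) * hε

lemma rej1 {σ ε α : ℝ} (hσ : 0 < σ) (hε : ε ^ 2 = 1) (hα : σ * 10 ^ 8 ≤ α) :
    ∃ Z ∈ proj (detVar 3 3 2) (X1 d σ ε + α • G1 d ε),
      ip (SM d) (X1 d σ ε) - α * ‖G1 d ε‖ ^ 2 + 4000 * α ≤ ip (SM d) Z := by
  have ba11 := d.ba11
  have ba12 := d.ba12
  have ba22 := d.ba22
  have bN := d.bN
  have bze := d.bze
  have bt11 := d.bt11
  have bt12 := d.bt12
  have bt22 := d.bt22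
  have hQ := d.Q1
  have hα0 : 0 < α := by nlinarith
  obtain ⟨ρ, hρdef⟩ : ∃ ρ, ρ = σ / α := ⟨_, rfl⟩
  have hρ : 0 < ρ := by rw [hρdef]; positivity
  have hρ1 : ρ ≤ 1 / 10 ^ 8 := by
    rw [hρdef, div_le_iff₀ hα0]
    linarith
  have hσρ : σ = ρ * α := by rw [hρdef]; field_simp
  have r11 : ρ * d.t11 ≤ 1 / 10 ^ 8 * 13 := mul_le_mul hρ1 (by linarith) (by linarith) (by norm_num)
  have r22 : ρ * d.t22 ≤ 1 / 10 ^ 8 * 13 := mul_le_mul hρ1 (by linarith) (by linarith) (by norm_num)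
  have r11' : 0 ≤ ρ * d.t11 := by apply mul_nonneg hρ.le; linarith
  have r22' : 0 ≤ ρ * d.t22 := by apply mul_nonneg hρ.le; linarith
  have r12 : ρ * (d.t12 + 1) ≤ 1 / 10 ^ 8 * 2 :=
    mul_le_mul hρ1 (by linarith) (by linarith) (by norm_num)
  have r12' : 0 ≤ ρ * (d.t12 + 1) := by apply mul_nonneg hρ.le; linarith
  have hf : 0 ≤ d.N - d.ze ∧ d.N - d.ze ≤ 0.001 := by
    have h1 : d.ze - d.N = (100 * d.a11 + 20 * d.a12 + d.a22) / 10 ^ 12 -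
      d.ze * (202 / 10 ^ 12 + 10201 / 10 ^ 24) := by linear_combination -hQ
    constructor <;> linarith
  have hd : ε * (ε * (10 * d.ze / 10 ^ 6 - (10 * (ρ * d.t11) + (ρ * d.t12)) / 10 ^ 6)) =
      10 * d.ze / 10 ^ 6 - (10 * (ρ * d.t11) + (ρ * d.t12)) / 10 ^ 6 := by
    linear_combination (10 * d.ze / 10 ^ 6 - (10 * (ρ * d.t11) + (ρ * d.t12)) / 10 ^ 6) * hε
  have he : ε * (ε * (d.ze / 10 ^ 6 - (10 * (ρ * d.t12) + (ρ * d.t22)) / 10 ^ 6)) =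
      d.ze / 10 ^ 6 - (10 * (ρ * d.t12) + (ρ * d.t22)) / 10 ^ 6 := by
    linear_combination (d.ze / 10 ^ 6 - (10 * (ρ * d.t12) + (ρ * d.t22)) / 10 ^ 6) * hε
  obtain ⟨x, y, z, m, hu, hm, -, hz, h0, h1, h2, hmin⟩ := min_eig1
    (a := d.a11 - d.ze * (100 / 10 ^ 12) - ρ * d.t11)
    (b := d.a12 - d.ze * (10 / 10 ^ 12) - ρ * d.t12)
    (c := d.a22 - d.ze * (1 / 10 ^ 12) - ρ * d.t22)
    (d := ε * (10 * d.ze / 10 ^ 6 - (10 * (ρ * d.t11) + (ρ * d.t12)) / 10 ^ 6))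
    (e := ε * (d.ze / 10 ^ 6 - (10 * (ρ * d.t12) + (ρ * d.t22)) / 10 ^ 6))
    (f := d.N - d.ze - (100 * (ρ * d.t11) + 20 * (ρ * d.t12) + (ρ * d.t22)) / 10 ^ 12)
    (ε := ε) (by linarith) (by linarith) (by linarith) (by linarith) (by linarith) (by linarith)
    (by linarith) (by linarith) hε (by rw [hd]; linarith) (by rw [hd]; linarith)
    (by rw [he]; linarith) (by rw [he]; linarith)
  refine rej_common d hα0 (by rw [G1]; exact ip_G (qf_S1 d hε)) ?_ hu hm hz h0 h1 h2 hmin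
  ext i j
  fin_cases i <;> fin_cases j <;>
    simp only [X1, G1, SM, Q1, XM, QM, Sy, Matrix.add_apply, Matrix.sub_apply,
      Matrix.smul_apply, smul_eq_mul, Matrix.of_apply, Matrix.cons_val', Matrix.cons_val_zero,
      Matrix.cons_val_one, Matrix.cons_val, Matrix.cons_val_fin_one, Fin.zero_eta, Fin.mk_one,
      Fin.reduceFinMk, Matrix.neg_apply]
  · linear_combination d.t11 * hσρ + (α * d.ze * 100 / 10 ^ 12) * hε
  · linear_combination d.t12 * hσρ + (α * d.ze * 10 / 10 ^ 12) * hε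
  · linear_combination (ε * (10 * d.t11 + d.t12) / 10 ^ 6) * hσρ
  · linear_combination d.t12 * hσρ + (α * d.ze * 10 / 10 ^ 12) * hε
  · linear_combination d.t22 * hσρ + (α * d.ze * 1 / 10 ^ 12) * hε
  · linear_combination (ε * (10 * d.t12 + d.t22) / 10 ^ 6) * hσρ
  · linear_combination (ε * (10 * d.t11 + d.t12) / 10 ^ 6) * hσρ
  · linear_combination (ε * (10 * d.t12 + d.t22) / 10 ^ 6) * hσρ
  · linear_combination ((100 * d.t11 + 20 * d.t12 + d.t22) / 10 ^ 12) * hσρ +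
      (σ * (100 * d.t11 + 20 * d.t12 + d.t22) / 10 ^ 12) * hε

end P2GD
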