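import Mathlib
import Pool.Agent.Lib_helper66.P2GD.Step2

open Filter Topology Matrix
open scoped Matrix.Norms.Frobenius
open P2GD.Cycle (Data)

namespace P2GD

variable (d : Data)

lemma block_bd {p q r : ℝ} (hp : 12 < p) (hp' : p < 12.001) (hq : -0.001 < q) (hq' : q < 0.001)
    (hr : 5 < r) (hr' : r < 5.001) (x y : ℝ) :
    16 * (x ^ 2 + y ^ 2) ≤ (p * x + q * y) ^ 2 + (q * x + r * y) ^ 2 := by
  obtain ⟨w, hw⟩ : ∃ w, w = q * (p + r) := ⟨_, rfl⟩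
  have hw1 : w ≤ 0.02 := by
    rw [hw]
    nlinarith
  have hw2 : -0.02 ≤ w := by
    rw [hw]
    nlinarith
  have e : (p * x + q * y) ^ 2 + (q * x + r * y) ^ 2 =
      p ^ 2 * x ^ 2 + r ^ 2 * y ^ 2 + q ^ 2 * (x ^ 2 + y ^ 2) + 2 * w * (x * y) := by
    rw [hw]; ring
  have h1 : 144 * x ^ 2 ≤ p ^ 2 * x ^ 2 := mul_le_mul_of_nonneg_right (by nlinarith) (sq_nonneg x)
  have h2 : 25 * y ^ 2 ≤ r ^ 2 * y ^ 2 := mul_le_mul_of_nonneg_right (by nlinarith) (sq_nonneg y)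
  have h3 : 0 ≤ q ^ 2 * (x ^ 2 + y ^ 2) := by positivity
  have h4 : -(0.02 * (x ^ 2 + y ^ 2)) ≤ 2 * w * (x * y) := by
    have h5 := mul_nonneg (by linarith : 0 ≤ 0.02 + w) (sq_nonneg (x + y))
    have h6 := mul_nonneg (by linarith : 0 ≤ 0.02 - w) (sq_nonneg (x - y))
    nlinarith
  rw [e]
  nlinarith [sq_nonneg x, sq_nonneg y]

lemma det_ne {σ p q r : ℝ} (hσ : 0 < σ) (hp : 12 < p) (hq : -0.001 < q) (hq' : q < 0.001)
    (hr : 5 < r) : σ * p * (σ * r) - (σ * q) ^ 2 ≠ 0 := by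
  have h1 : 60 < p * r := by nlinarith
  have h2 : q ^ 2 ≤ 1 := by nlinarith
  have h3 : 0 < σ ^ 2 * (p * r - q ^ 2) := mul_pos (by positivity) (by linarith)
  have h4 : σ * p * (σ * r) - (σ * q) ^ 2 = σ ^ 2 * (p * r - q ^ 2) := by ring
  rw [h4]
  exact h3.ne'

lemma norm_XM {σ p q r u v : ℝ} (hp : 12 < p) (hp' : p < 12.001) (hq : -0.001 < q)
    (hq' : q < 0.001) (hr : 5 < r) (hr' : r < 5.001) (hu : u ^ 2 ≤ 1 / 10 ^ 6)
    (hv : v ^ 2 ≤ 1 / 10 ^ 6) :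
    ‖XM (σ * p) (σ * q) (σ * r) u v‖ ^ 2 ≤ 200 * σ ^ 2 := by
  rw [norm_sq3]
  simp only [XM, Matrix.of_apply, Matrix.cons_val', Matrix.cons_val_zero,
      Matrix.cons_val_one, Matrix.cons_val, Matrix.cons_val_fin_one]
  have e : (σ * p) ^ 2 + (σ * q) ^ 2 + (-(σ * p * u + σ * q * v)) ^ 2 + (σ * q) ^ 2 +
      (σ * r) ^ 2 + (-(σ * q * u + σ * r * v)) ^ 2 + (-(σ * p * u + σ * q * v)) ^ 2 +
      (-(σ * q * u + σ * r * v)) ^ 2 + (σ * p * u ^ 2 + 2 * (σ * q) * u * v + σ * r * v ^ 2) ^ 2 =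
      σ ^ 2 * (p ^ 2 + 2 * q ^ 2 + r ^ 2 + 2 * (p * u + q * v) ^ 2 + 2 * (q * u + r * v) ^ 2 +
        (u * (p * u + q * v) + v * (q * u + r * v)) ^ 2) := by ring
  rw [e, mul_comm]
  apply mul_le_mul_of_nonneg_right _ (sq_nonneg σ)
  have h1 : p ^ 2 ≤ 144.1 := by nlinarith
  have h2 : q ^ 2 ≤ 0.001 := by nlinarith
  have h3 : r ^ 2 ≤ 25.1 := by nlinarith
  have h4 : (p * u + q * v) ^ 2 ≤ 1 := by
    have : (p * u + q * v) ^ 2 ≤ (p ^ 2 + q ^ 2) * (u ^ 2 + v ^ 2) := by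
      nlinarith [sq_nonneg (p * v - q * u)]
    have h5 : (p ^ 2 + q ^ 2) * (u ^ 2 + v ^ 2) ≤ 200 * (2 / 10 ^ 6) :=
      mul_le_mul (by linarith) (by linarith) (by positivity) (by norm_num)
    linarith
  have h5 : (q * u + r * v) ^ 2 ≤ 1 := by
    have : (q * u + r * v) ^ 2 ≤ (q ^ 2 + r ^ 2) * (u ^ 2 + v ^ 2) := by
      nlinarith [sq_nonneg (q * v - r * u)]
    have h5 : (q ^ 2 + r ^ 2) * (u ^ 2 + v ^ 2) ≤ 200 * (2 / 10 ^ 6) :=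
      mul_le_mul (by linarith) (by linarith) (by positivity) (by norm_num)
    linarith
  have h6 : (u * (p * u + q * v) + v * (q * u + r * v)) ^ 2 ≤ 1 := by
    have : (u * (p * u + q * v) + v * (q * u + r * v)) ^ 2 ≤
        (u ^ 2 + v ^ 2) * ((p * u + q * v) ^ 2 + (q * u + r * v) ^ 2) := by
      nlinarith [sq_nonneg (u * (q * u + r * v) - v * (p * u + q * v))]
    have h7 : (u ^ 2 + v ^ 2) * ((p * u + q * v) ^ 2 + (q * u + r * v) ^ 2) ≤ (2 / 10 ^ 6) * 2 :=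
      mul_le_mul (by linarith) (by linarith) (by positivity) (by norm_num)
    linarith
  linarith

lemma norm_X0 {σ ε : ℝ} (hε : ε ^ 2 = 1) : ‖X0 d σ ε‖ ^ 2 ≤ 200 * σ ^ 2 := by
  unfold X0
  exact norm_XM d.bs11.1 d.bs11.2 d.bs12.1 d.bs12.2 d.bs22.1 d.bs22.2
    (by rw [mul_pow, hε]; norm_num) (by rw [mul_pow, hε]; norm_num)

lemma norm_X1 {σ ε : ℝ} (hε : ε ^ 2 = 1) : ‖X1 d σ ε‖ ^ 2 ≤ 200 * σ ^ 2 := by
  unfold X1
  exact norm_XM d.bt11.1 d.bt11.2 d.bt12.1 d.bt12.2 d.bt22.1 d.bt22.2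
    (by rw [mul_pow, hε]; norm_num) (by rw [mul_pow, hε]; norm_num)

lemma ip_Q (S : M3) (u v : ℝ) : ip S (QM u v) = qf u v S := by
  rw [ip_eq]
  simp [QM, qf]
  ring

/-- the accepted step from the even state -/
lemma acc0 {σ ε : ℝ} (hσ : 0 < σ) (hε : ε ^ 2 = 1) :
    X1 d σ ε ∈ proj (detVar 3 3 2) (X0 d σ ε + (σ * d.al0) • G0 d ε) ∧
    ip (SM d) (X1 d σ ε) ≤ ip (SM d) (X0 d σ ε) - 1 / 10 * (σ * d.al0) * ‖G0 d ε‖ ^ 2 := by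
  have hstep := step0 d (σ := σ) hε
  have bD := d.bD
  have bze := d.bze
  have bal0 := d.bal0
  have e1 : (ε * (-10 / 10 ^ 6)) ^ 2 = 100 / 10 ^ 12 := by rw [mul_pow, hε]; norm_num
  have e2 : (ε * (-1 / 10 ^ 6)) ^ 2 = 1 / 10 ^ 12 := by rw [mul_pow, hε]; norm_num
  constructor
  · rw [hstep]
    unfold X1 Q1
    refine XM_mem_proj (s := 16 * σ ^ 2) ?_ ?_
    · intro x y
      have h := block_bd d.bt11.1 d.bt11.2 d.bt12.1 d.bt12.2 d.bt22.1 d.bt22.2 x y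
      have h2 := mul_le_mul_of_nonneg_left h (sq_nonneg σ)
      calc 16 * σ ^ 2 * (x ^ 2 + y ^ 2) = σ ^ 2 * (16 * (x ^ 2 + y ^ 2)) := by ring
        _ ≤ _ := h2
        _ = _ := by ring
    · rw [e1, e2]
      have h1 : (σ * d.D * (100 / 10 ^ 12 + 1 / 10 ^ 12 + 1)) ^ 2 =
          (d.D * (100 / 10 ^ 12 + 1 / 10 ^ 12 + 1)) ^ 2 * σ ^ 2 := by ring
      rw [h1]
      apply mul_le_mul_of_nonneg_right _ (sq_nonneg σ)
      have h2 : d.D * (100 / 10 ^ 12 + 1 / 10 ^ 12 + 1) ≤ 1 := by linarith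
      have h3 : 0 ≤ d.D * (100 / 10 ^ 12 + 1 / 10 ^ 12 + 1) := by linarith
      nlinarith
  · have h1 : X1 d σ ε = X0 d σ ε + (σ * d.al0) • G0 d ε + (σ * d.D) • Q1 ε := by
      rw [hstep]; abel
    have hG : ip (SM d) (G0 d ε) = -‖G0 d ε‖ ^ 2 := ip_G (qf_S0 d hε)
    have hQ : ip (SM d) (Q1 ε) = d.ze * (100 / 10 ^ 12 + 1 / 10 ^ 12 + 1) ^ 2 := by
      unfold Q1
      rw [ip_Q, qf_S1 d hε, e1, e2]
    rw [h1, ip_add, ip_add, ip_smul, ip_smul, hG, hQ]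
    have hn := (normG0 d hε).1
    have k1 : d.D * (d.ze * (100 / 10 ^ 12 + 1 / 10 ^ 12 + 1) ^ 2) ≤ 3.81e-10 * 1000030 :=
      mul_le_mul bD.2.le (by linarith) (by linarith) (by norm_num)
    have k2 : 3.999e-6 * 669 ≤ d.al0 * ‖G0 d ε‖ ^ 2 :=
      mul_le_mul bal0.1.le hn (by norm_num) (by linarith)
    have k3 : d.D * (d.ze * (100 / 10 ^ 12 + 1 / 10 ^ 12 + 1) ^ 2) ≤
        9 / 10 * (d.al0 * ‖G0 d ε‖ ^ 2) := by
      norm_num1 at k1 k2 ⊢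
      linarith
    have k4 := mul_le_mul_of_nonneg_left k3 hσ.le
    linarith

/-- the accepted step from the odd state -/
lemma acc1 {σ ε : ℝ} (hσ : 0 < σ) (hε : ε ^ 2 = 1) :
    X0 d (d.lam * σ) (-ε) ∈ proj (detVar 3 3 2) (X1 d σ ε + (σ * d.al1) • G1 d ε) ∧
    ip (SM d) (X0 d (d.lam * σ) (-ε)) ≤
      ip (SM d) (X1 d σ ε) - 1 / 10 * (σ * d.al1) * ‖G1 d ε‖ ^ 2 := by
  have hstep := step1 d (σ := σ) hε
  have bD := d.bD2
  have bGa := d.bGa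
  have bal1 := d.bal1
  have blam := d.blam
  have hε' : (-ε) ^ 2 = 1 := by rw [neg_sq, hε]
  have e1 : (-ε * (-15 / 10 ^ 6)) ^ 2 = 225 / 10 ^ 12 := by rw [mul_pow, hε']; norm_num
  have e2 : (-ε * (-5 / 10 ^ 6)) ^ 2 = 25 / 10 ^ 12 := by rw [mul_pow, hε']; norm_num
  constructor
  · rw [hstep]
    unfold X0 Q0
    refine XM_mem_proj (s := 16 * (d.lam * σ) ^ 2) ?_ ?_
    · intro x y
      have h := block_bd d.bs11.1 d.bs11.2 d.bs12.1 d.bs12.2 d.bs22.1 d.bs22.2 x y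
      have h2 := mul_le_mul_of_nonneg_left h (sq_nonneg (d.lam * σ))
      calc 16 * (d.lam * σ) ^ 2 * (x ^ 2 + y ^ 2) =
          (d.lam * σ) ^ 2 * (16 * (x ^ 2 + y ^ 2)) := by ring
        _ ≤ _ := h2
        _ = _ := by ring
    · rw [e1, e2]
      have h1 : (σ * d.D2 * (225 / 10 ^ 12 + 25 / 10 ^ 12 + 1)) ^ 2 =
          (d.D2 * (225 / 10 ^ 12 + 25 / 10 ^ 12 + 1)) ^ 2 * σ ^ 2 := by ring
      have h4 : 16 * (d.lam * σ) ^ 2 = 16 * d.lam ^ 2 * σ ^ 2 := by ring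
      rw [h1, h4]
      apply mul_le_mul_of_nonneg_right _ (sq_nonneg σ)
      have h2 : d.D2 * (225 / 10 ^ 12 + 25 / 10 ^ 12 + 1) ≤ 1 := by linarith
      have h3 : 0 ≤ d.D2 * (225 / 10 ^ 12 + 25 / 10 ^ 12 + 1) := by linarith
      nlinarith
  · have h1 : X0 d (d.lam * σ) (-ε) =
        X1 d σ ε + (σ * d.al1) • G1 d ε + (σ * d.D2) • Q0 (-ε) := by
      rw [hstep]; abel
    have hG : ip (SM d) (G1 d ε) = -‖G1 d ε‖ ^ 2 := ip_G (qf_S1 d hε)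
    have hQ : ip (SM d) (Q0 (-ε)) = d.Ga * (225 / 10 ^ 12 + 25 / 10 ^ 12 + 1) ^ 2 := by
      unfold Q0
      rw [ip_Q, qf_S0 d hε', e1, e2]
    rw [h1, ip_add, ip_add, ip_smul, ip_smul, hG, hQ]
    have hn := (normG1 d hε).1
    have k1 : d.D2 * (d.Ga * (225 / 10 ^ 12 + 25 / 10 ^ 12 + 1) ^ 2) ≤ 7.681e-9 * 1000040 :=
      mul_le_mul bD.2.le (by linarith) (by linarith) (by norm_num)
    have k2 : 2.9999e-5 * 371 ≤ d.al1 * ‖G1 d ε‖ ^ 2 :=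
      mul_le_mul bal1.1.le hn (by norm_num) (by linarith)
    have k3 : d.D2 * (d.Ga * (225 / 10 ^ 12 + 25 / 10 ^ 12 + 1) ^ 2) ≤
        9 / 10 * (d.al1 * ‖G1 d ε‖ ^ 2) := by
      norm_num1 at k1 k2 ⊢
      linarith
    have k4 := mul_le_mul_of_nonneg_left k3 hσ.le
    linarith

section general

variable {d} {f : M3 → ℝ}

lemma stat0 (hf2 : ∀ X : M3, ‖X‖ ^ 2 < 400 → grad f X = SM d) {σ ε : ℝ} (hσ : 0 < σ) (hσ1 : σ ≤ 1)
    (hε : ε ^ 2 = 1) :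
    proj (tangentCone (detVar 3 3 2) (X0 d σ ε)) (-grad f (X0 d σ ε)) = {G0 d ε} ∧
      statMeas 2 f (X0 d σ ε) = ‖G0 d ε‖ := by
  have hn : ‖X0 d σ ε‖ ^ 2 < 400 := by
    have := norm_X0 d (σ := σ) hε
    nlinarith
  have hg := hf2 _ hn
  have hD := det_ne hσ d.bs11.1 d.bs12.1 d.bs12.2 d.bs22.1
  constructor
  · rw [hg]
    exact proj_tangentCone hD (SM d) d.Ga (qf_S0 d hε)
  · exact statMeas_eq hD (SM d) d.Ga (qf_S0 d hε) f hg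

lemma stat1 (hf2 : ∀ X : M3, ‖X‖ ^ 2 < 400 → grad f X = SM d) {σ ε : ℝ} (hσ : 0 < σ) (hσ1 : σ ≤ 1)
    (hε : ε ^ 2 = 1) :
    proj (tangentCone (detVar 3 3 2) (X1 d σ ε)) (-grad f (X1 d σ ε)) = {G1 d ε} ∧
      statMeas 2 f (X1 d σ ε) = ‖G1 d ε‖ := by
  have hn : ‖X1 d σ ε‖ ^ 2 < 400 := by
    have := norm_X1 d (σ := σ) hε
    nlinarith
  have hg := hf2 _ hn
  have hD := det_ne hσ d.bt11.1 d.bt12.1 d.bt12.2 d.bt22.1
  constructor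
  · rw [hg]
    exact proj_tangentCone hD (SM d) d.ze (qf_S1 d hε)
  · exact statMeas_eq hD (SM d) d.ze (qf_S1 d hε) f hg

lemma out0 (hf1 : ∀ X : M3, ‖X‖ ^ 2 < 400 → f X = ip (SM d) X)
    (hf2 : ∀ X : M3, ‖X‖ ^ 2 < 400 → grad f X = SM d) (hf3 : ∀ X, ip (SM d) X ≤ f X)
    {σ ε : ℝ} (hσ : 0 < σ) (hσ1 : σ ≤ 1) (hε : ε ^ 2 = 1) :
    IsOutput 2 f (1 / 10 ^ 14) 1 (1 / 10 ^ 14) (1 / 10) (X0 d σ ε) (X1 d σ ε) := by
  have bal0 := d.bal0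
  have hn0 : ‖X0 d σ ε‖ ^ 2 < 400 := by
    have := norm_X0 d (σ := σ) hε
    nlinarith
  have hn1 : ‖X1 d σ ε‖ ^ 2 < 400 := by
    have := norm_X1 d (σ := σ) hε
    nlinarith
  obtain ⟨hp, hs⟩ := stat0 hf2 hσ hσ1 hε
  obtain ⟨ha1, ha2⟩ := acc0 d hσ hε
  have hnG := (normG0 d hε).2
  refine isOutput_of (G := G0 d ε) (αs := σ * d.al0) (by norm_num) (by norm_num)
    (mul_pos hσ (by linarith)) (by nlinarith) (by rw [hp]; rfl) hs ha1 ?_ ?_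
  · rw [hf1 _ hn0, hf1 _ hn1]
    exact ha2
  · intro α hα
    have h1 : σ * 10 ^ 8 ≤ α := by
      refine le_trans ?_ hα
      rw [div_div_eq_mul_div, div_one]
      have : σ * 10 ^ 8 ≤ σ * (d.al0 * 10 ^ 14) :=
        mul_le_mul_of_nonneg_left (by linarith) hσ.le
      linarith
    have hα0 : 0 < α := by nlinarith
    obtain ⟨Z, hZ1, hZ2⟩ := rej0 d hσ hε h1
    refine ⟨Z, hZ1, ?_⟩
    rw [hf1 _ hn0]
    have h3 := hf3 Z
    have h4 : α * ‖G0 d ε‖ ^ 2 ≤ α * 670 := mul_le_mul_of_nonneg_left hnG hα0.le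
    have h5 : 0 ≤ α * ‖G0 d ε‖ ^ 2 := by positivity
    linarith

lemma out1 (hf1 : ∀ X : M3, ‖X‖ ^ 2 < 400 → f X = ip (SM d) X)
    (hf2 : ∀ X : M3, ‖X‖ ^ 2 < 400 → grad f X = SM d) (hf3 : ∀ X, ip (SM d) X ≤ f X)
    {σ ε : ℝ} (hσ : 0 < σ) (hσ1 : σ ≤ 1) (hε : ε ^ 2 = 1) :
    IsOutput 2 f (1 / 10 ^ 14) 1 (1 / 10 ^ 14) (1 / 10) (X1 d σ ε) (X0 d (d.lam * σ) (-ε)) := by
  have bal1 := d.bal1
  have blam := d.blam
  have hlσ : (d.lam * σ) ^ 2 ≤ 1 := by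
    have h1 : d.lam * σ ≤ 1 := by nlinarith
    have h2 : 0 ≤ d.lam * σ := by apply mul_nonneg <;> linarith
    nlinarith
  have hn0 : ‖X0 d (d.lam * σ) (-ε)‖ ^ 2 < 400 := by
    have := norm_X0 d (σ := d.lam * σ) (ε := -ε) (by rw [neg_sq, hε])
    nlinarith
  have hn1 : ‖X1 d σ ε‖ ^ 2 < 400 := by
    have := norm_X1 d (σ := σ) hε
    nlinarith
  obtain ⟨hp, hs⟩ := stat1 hf2 hσ hσ1 hε
  obtain ⟨ha1, ha2⟩ := acc1 d hσ hε
  have hnG := (normG1 d hε).2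
  refine isOutput_of (G := G1 d ε) (αs := σ * d.al1) (by norm_num) (by norm_num)
    (mul_pos hσ (by linarith)) (by nlinarith) (by rw [hp]; rfl) hs ha1 ?_ ?_
  · rw [hf1 _ hn0, hf1 _ hn1]
    exact ha2
  · intro α hα
    have h1 : σ * 10 ^ 8 ≤ α := by
      refine le_trans ?_ hα
      rw [div_div_eq_mul_div, div_one]
      have : σ * 10 ^ 8 ≤ σ * (d.al1 * 10 ^ 14) :=
        mul_le_mul_of_nonneg_left (by linarith) hσ.le
      linarith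
    have hα0 : 0 < α := by nlinarith
    obtain ⟨Z, hZ1, hZ2⟩ := rej1 d hσ hε h1
    refine ⟨Z, hZ1, ?_⟩
    rw [hf1 _ hn1]
    have h3 := hf3 Z
    have h4 : α * ‖G1 d ε‖ ^ 2 ≤ α * 372 := mul_le_mul_of_nonneg_left hnG hα0.le
    have h5 : 0 ≤ α * ‖G1 d ε‖ ^ 2 := by positivity
    linarith

end general

/-- the bad sequence -/
noncomputable def seq (n : ℕ) : M3 :=
  if n % 2 = 0 then X0 d (d.lam ^ (n / 2)) ((-1) ^ (n / 2))
  else X1 d (d.lam ^ (n / 2)) ((-1) ^ (n / 2))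

lemma eps_sq (j : ℕ) : ((-1 : ℝ) ^ j) ^ 2 = 1 := by
  rw [← pow_mul, mul_comm, pow_mul]; norm_num

lemma seq_even (j : ℕ) : seq d (2 * j) = X0 d (d.lam ^ j) ((-1) ^ j) := by
  have h1 : 2 * j % 2 = 0 := by omega
  have h2 : 2 * j / 2 = j := by omega
  simp only [seq, h1, h2, if_true]

lemma seq_odd (j : ℕ) : seq d (2 * j + 1) = X1 d (d.lam ^ j) ((-1) ^ j) := by
  have h1 : (2 * j + 1) % 2 = 1 := by omega
  have h2 : (2 * j + 1) / 2 = j := by omega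
  simp only [seq, h1, h2, one_ne_zero, if_false]

lemma seq_even_succ (j : ℕ) :
    seq d (2 * j + 1 + 1) = X0 d (d.lam * d.lam ^ j) (-(-1) ^ j) := by
  have h : 2 * j + 1 + 1 = 2 * (j + 1) := by ring
  rw [h, seq_even, pow_succ, pow_succ, mul_comm (d.lam ^ j), mul_neg_one]

theorem main_theorem (f : M3 → ℝ) (hf1 : ∀ X : M3, ‖X‖ ^ 2 < 400 → f X = ip (SM d) X)
    (hf2 : ∀ X : M3, ‖X‖ ^ 2 < 400 → grad f X = SM d) (hf3 : ∀ X, ip (SM d) X ≤ f X) :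
    IsP2GDSeq 2 f (1 / 10 ^ 14) 1 (1 / 10 ^ 14) (1 / 10) (seq d) ∧
      Tendsto (seq d) atTop (𝓝 0) ∧
      ∀ i, ∃ G, proj (tangentCone (detVar 3 3 2) (seq d i)) (-grad f (seq d i)) = {G} ∧
        statMeas 2 f (seq d i) = ‖G‖ ∧ 19 ≤ ‖G‖ := by
  have blam := d.blam
  have hl0 : 0 < d.lam := by linarith
  have hl1 : d.lam < 1 := by linarith
  have hpow : ∀ j : ℕ, 0 < d.lam ^ j ∧ d.lam ^ j ≤ 1 := fun j =>
    ⟨pow_pos hl0 j, pow_le_one₀ hl0.le hl1.le⟩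
  have hstat : ∀ i, ∃ G, proj (tangentCone (detVar 3 3 2) (seq d i)) (-grad f (seq d i)) = {G} ∧
        statMeas 2 f (seq d i) = ‖G‖ ∧ 19 ≤ ‖G‖ := by
    intro i
    obtain ⟨j, rfl | rfl⟩ := i.even_or_odd'
    · rw [seq_even]
      obtain ⟨h1, h2⟩ := stat0 hf2 (hpow j).1 (hpow j).2 (eps_sq j)
      refine ⟨_, h1, h2, ?_⟩
      have h1 := (normG0 d (eps_sq j)).1
      nlinarith [norm_nonneg (G0 d ((-1) ^ j))]
    · rw [seq_odd]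
      obtain ⟨h1, h2⟩ := stat1 hf2 (hpow j).1 (hpow j).2 (eps_sq j)
      refine ⟨_, h1, h2, ?_⟩
      have h1 := (normG1 d (eps_sq j)).1
      nlinarith [norm_nonneg (G1 d ((-1) ^ j))]
  refine ⟨⟨?_, fun i => ⟨?_, ?_⟩⟩, ?_, hstat⟩
  · have h0 : seq d 0 = X0 d (d.lam ^ 0) ((-1) ^ 0) := seq_even d 0
    rw [h0]
    exact mem_detVar_iff.2 (XM_det _ _ _ _ _)
  · obtain ⟨G, -, h2, h3⟩ := hstat i
    rw [h2]
    linarith
  · obtain ⟨j, rfl | rfl⟩ := i.even_or_odd'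
    · rw [seq_even, seq_odd]
      exact out0 hf1 hf2 hf3 (hpow j).1 (hpow j).2 (eps_sq j)
    · rw [seq_even_succ, seq_odd]
      exact out1 hf1 hf2 hf3 (hpow j).1 (hpow j).2 (eps_sq j)
  · have hbd : ∀ n, ‖seq d n‖ ≤ 20 * d.lam ^ (n / 2) := by
      intro n
      apply le_of_sq_le_sq _ (by have := (hpow (n / 2)).1; positivity)
      have h1 : (20 * d.lam ^ (n / 2)) ^ 2 = 400 * (d.lam ^ (n / 2)) ^ 2 := by ring
      rw [h1]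
      unfold seq
      split_ifs
      · have := norm_X0 d (σ := d.lam ^ (n / 2)) (eps_sq (n / 2))
        nlinarith [sq_nonneg (d.lam ^ (n / 2))]
      · have := norm_X1 d (σ := d.lam ^ (n / 2)) (eps_sq (n / 2))
        nlinarith [sq_nonneg (d.lam ^ (n / 2))]
    have hlim : Tendsto (fun n : ℕ => 20 * d.lam ^ (n / 2)) atTop (𝓝 0) := by
      have h1 : Tendsto (fun n : ℕ => n / 2) atTop atTop :=
        Nat.tendsto_div_const_atTop (by norm_num)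
      have h2 := ((tendsto_pow_atTop_nhds_zero_of_lt_one hl0.le hl1).comp h1).const_mul 20
      rw [mul_zero] at h2
      exact h2
    exact squeeze_zero_norm hbd hlim

end P2GD
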